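import Mathlib
import Pool.Agent.Lib.MP_1ea25c_nt.Roots
import Pool.Agent.Lib.MP_1ea25c_nt.H61.Basic

/-!
# Pell type equations, uniformly (MP_5ad645_nt)

`x ^ 2 + t ^ 2 = E * r ^ 2` with `gcd (x, t) = 1` and `x ≤ Z` has at most `C (Z + t) ^ ε`
solutions, uniformly in `E`.
-/

set_option autoImplicit false
set_option maxHeartbeats 2000000

namespace Pool.Agent.Lib.MP_5ad645_nt.H89

/-- doubling of Pell solutions -/
theorem pell_double {E U1 V1 U2 V2 : ℕ} (hE : 1 ≤ E) (h1 : U1 ^ 2 = E * V1 ^ 2 + 1)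
    (h2 : U2 ^ 2 = E * V2 ^ 2 + 1) (hV1 : 1 ≤ V1) (hlt : V1 < V2) : 2 * V1 ≤ V2 := by
  have a1 : U2 * V1 < U1 * V2 := by
    apply lt_of_pow_lt_pow_left₀ 2 (Nat.zero_le _)
    rw [mul_pow, mul_pow, h1, h2]
    have : V1 ^ 2 < V2 ^ 2 := Nat.pow_lt_pow_left hlt (by norm_num)
    nlinarith
  have a2 : E * V1 * V2 < U1 * U2 := by
    apply lt_of_pow_lt_pow_left₀ 2 (Nat.zero_le _)
    have e1 : (U1 * U2) ^ 2 = (E * V1 ^ 2 + 1) * (E * V2 ^ 2 + 1) := by rw [mul_pow, h1, h2]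
    rw [e1]
    nlinarith [Nat.zero_le (E * V1 ^ 2), Nat.zero_le (E * V2 ^ 2)]
  have a3 : V1 < U1 := by
    apply lt_of_pow_lt_pow_left₀ 2 (Nat.zero_le _)
    rw [h1]
    nlinarith [Nat.zero_le (V1 ^ 2)]
  have key : (V2 : ℤ) = U1 * ((U1 : ℤ) * V2 - U2 * V1) + V1 * ((U1 : ℤ) * U2 - E * V1 * V2) := by
    have h1' : (U1 : ℤ) ^ 2 = E * V1 ^ 2 + 1 := by exact_mod_cast h1
    linear_combination (-(V2 : ℤ)) * h1'
  have b1 : (1 : ℤ) ≤ (U1 : ℤ) * V2 - U2 * V1 := by
    have : ((U2 * V1 : ℕ) : ℤ) < ((U1 * V2 : ℕ) : ℤ) := by exact_mod_cast a1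
    push_cast at this
    linarith
  have b2 : (1 : ℤ) ≤ (U1 : ℤ) * U2 - E * V1 * V2 := by
    have : ((E * V1 * V2 : ℕ) : ℤ) < ((U1 * U2 : ℕ) : ℤ) := by exact_mod_cast a2
    push_cast at this
    linarith
  have b3 : (V1 : ℤ) ≤ U1 := by exact_mod_cast a3.le
  have b4 : (0 : ℤ) ≤ V1 := by positivity
  have : (2 : ℤ) * V1 ≤ V2 := by nlinarith
  exact_mod_cast this

/-- the `V` with `E * V ^ 2 + 1` a square. -/
def pellV (E M : ℕ) : Finset ℕ := (Finset.Icc 1 M).filter (fun V => IsSquare (E * V ^ 2 + 1))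

theorem card_pellV {E : ℕ} (hE : 1 ≤ E) (M : ℕ) : (pellV E M).card ≤ Nat.log 2 M + 1 := by
  classical
  have h : Set.InjOn (Nat.log 2) (pellV E M : Set ℕ) := by
    have hlt : ∀ a ∈ (pellV E M : Set ℕ), ∀ b ∈ (pellV E M : Set ℕ), a < b →
        Nat.log 2 a < Nat.log 2 b := by
      intro a ha b hb hab
      simp only [pellV, Finset.coe_filter, Finset.mem_Icc, Set.mem_ofPred_eq] at ha hb
      obtain ⟨⟨ha1, _⟩, u, hu⟩ := ha
      obtain ⟨_, v, hv⟩ := hb
      have h2 := pell_double hE (U1 := u) (U2 := v) (by rw [hu]; ring) (by rw [hv]; ring) ha1 hab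
      have h3 : Nat.log 2 (a * 2) = Nat.log 2 a + 1 := Nat.log_mul_base (by norm_num) (by omega)
      have h4 : Nat.log 2 (a * 2) ≤ Nat.log 2 b := Nat.log_mono_right (by omega)
      omega
    intro a ha b hb hab
    rcases lt_trichotomy a b with h | h | h
    · have := hlt a ha b hb h; omega
    · exact h
    · have := hlt b hb a ha h; omega
  rw [← Finset.card_image_of_injOn h]
  have hsub : (pellV E M).image (Nat.log 2) ⊆ Finset.range (Nat.log 2 M + 1) := by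
    intro k hk
    rw [Finset.mem_image] at hk
    obtain ⟨V, hV, rfl⟩ := hk
    simp only [pellV, Finset.mem_filter, Finset.mem_Icc] at hV
    rw [Finset.mem_range]
    have := Nat.log_mono_right (b := 2) hV.1.2
    omega
  calc _ ≤ (Finset.range (Nat.log 2 M + 1)).card := Finset.card_le_card hsub
    _ = _ := Finset.card_range _

/-- integer version. -/
theorem card_pellZ {E : ℕ} (hE : 1 ≤ E) (M : ℕ) :
    ((Finset.Icc (-(M : ℤ)) M).filter (fun V => IsSquare ((E : ℤ) * V ^ 2 + 1))).card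
      ≤ 2 * Nat.log 2 M + 3 := by
  classical
  have hsub : (Finset.Icc (-(M : ℤ)) M).filter (fun V => IsSquare ((E : ℤ) * V ^ 2 + 1))
      ⊆ ({0} : Finset ℤ) ∪ ((pellV E M).image (fun V : ℕ => (V : ℤ)) ∪
        (pellV E M).image (fun V : ℕ => -(V : ℤ))) := by
    intro V hV
    rw [Finset.mem_filter, Finset.mem_Icc] at hV
    obtain ⟨⟨h1, h2⟩, u, hu⟩ := hV
    have hs : V ≠ 0 → V.natAbs ∈ pellV E M := by
      intro h0
      rw [pellV, Finset.mem_filter, Finset.mem_Icc]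
      refine ⟨⟨by omega, by omega⟩, u.natAbs, ?_⟩
      zify
      rw [← sq, sq_abs, sq_abs, hu]
      ring
    simp only [Finset.mem_union, Finset.mem_singleton, Finset.mem_image]
    rcases lt_trichotomy V 0 with h | h | h
    · right; right
      exact ⟨V.natAbs, hs (by omega), by omega⟩
    · left; exact h
    · right; left
      exact ⟨V.natAbs, hs (by omega), by omega⟩
  have h0 := card_pellV hE M
  calc _ ≤ _ := Finset.card_le_card hsub
    _ ≤ ({0} : Finset ℤ).card + _ := Finset.card_union_le _ _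
    _ ≤ 1 + (((pellV E M).image (fun V : ℕ => (V : ℤ))).card +
        ((pellV E M).image (fun V : ℕ => -(V : ℤ))).card) := by
        gcongr
        · simp
        · exact Finset.card_union_le _ _
    _ ≤ 1 + ((pellV E M).card + (pellV E M).card) := by
        gcongr
        · exact Finset.card_image_le
        · exact Finset.card_image_le
    _ ≤ _ := by omega

open Classical in
/-- the solutions of `x ^ 2 + t ^ 2 = E r ^ 2`. -/
noncomputable def sols (E t Z : ℕ) : Finset ℕ :=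
  (Finset.Icc 1 Z).filter (fun x => Nat.Coprime x t ∧ ∃ r : ℕ, x ^ 2 + t ^ 2 = E * r ^ 2)

theorem coprime_r {E t x r : ℕ} (hc : Nat.Coprime x t) (h : x ^ 2 + t ^ 2 = E * r ^ 2) :
    Nat.Coprime r t := by
  rw [Nat.coprime_iff_gcd_eq_one] at *
  by_contra hne
  obtain ⟨p, hp, hpd⟩ := Nat.exists_prime_and_dvd hne
  have h1 : p ∣ r := hpd.trans (Nat.gcd_dvd_left _ _)
  have h2 : p ∣ t := hpd.trans (Nat.gcd_dvd_right _ _)
  have h3 : p ∣ x ^ 2 := by
    have h4 : p ∣ x ^ 2 + t ^ 2 := by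
      rw [h]; exact Dvd.dvd.mul_left (dvd_pow h1 (by norm_num)) _
    exact (Nat.dvd_add_left (dvd_pow h2 (by norm_num))).1 h4
  have h5 : p ∣ x := hp.dvd_of_dvd_pow h3
  have h6 : p ∣ Nat.gcd x t := Nat.dvd_gcd h5 h2
  rw [hc] at h6
  exact hp.one_lt.ne' (Nat.dvd_one.1 h6)

theorem coprime_E {E t x r : ℕ} (hc : Nat.Coprime x t) (h : x ^ 2 + t ^ 2 = E * r ^ 2) :
    Nat.Coprime E t := by
  rw [Nat.coprime_iff_gcd_eq_one] at *
  by_contra hne
  obtain ⟨p, hp, hpd⟩ := Nat.exists_prime_and_dvd hne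
  have h1 : p ∣ E := hpd.trans (Nat.gcd_dvd_left _ _)
  have h2 : p ∣ t := hpd.trans (Nat.gcd_dvd_right _ _)
  have h3 : p ∣ x ^ 2 := by
    have h4 : p ∣ x ^ 2 + t ^ 2 := by
      rw [h]; exact Dvd.dvd.mul_right h1 _
    exact (Nat.dvd_add_left (dvd_pow h2 (by norm_num))).1 h4
  have h5 : p ∣ x := hp.dvd_of_dvd_pow h3
  have h6 : p ∣ Nat.gcd x t := Nat.dvd_gcd h5 h2
  rw [hc] at h6
  exact hp.one_lt.ne' (Nat.dvd_one.1 h6)

/-- two solutions of the same class give a Pell solution. -/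
theorem pair_pell {E t x1 r1 x2 r2 : ℤ} (ht : t ≠ 0) (h1 : x1 ^ 2 + t ^ 2 = E * r1 ^ 2)
    (h2 : x2 ^ 2 + t ^ 2 = E * r2 ^ 2) {V : ℤ} (hV : x1 * r2 - x2 * r1 = t ^ 2 * V) :
    ∃ U : ℤ, U ^ 2 = E * V ^ 2 + 1 ∧ E * r1 * r2 - x1 * x2 = t ^ 2 * U := by
  have h3 : (E * r1 * r2 - x1 * x2) ^ 2 = (t ^ 2) ^ 2 * (E * V ^ 2 + 1) := by
    have : (E * r1 * r2 - x1 * x2) ^ 2 = (t ^ 2) ^ 2 + E * (x1 * r2 - x2 * r1) ^ 2 := by
      linear_combination (-(E * r2 ^ 2 - x2 ^ 2)) * h1 - t ^ 2 * h2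
    rw [this, hV]; ring
  have h4 : (t ^ 2) ^ 2 ∣ (E * r1 * r2 - x1 * x2) ^ 2 := ⟨_, h3⟩
  have h5 : t ^ 2 ∣ E * r1 * r2 - x1 * x2 := (Int.pow_dvd_pow_iff (by norm_num)).1 h4
  obtain ⟨U, hU⟩ := h5
  refine ⟨U, ?_, hU⟩
  rw [hU, mul_pow] at h3
  have h6 : (t ^ 2) ^ 2 ≠ 0 := by positivity
  exact mul_left_cancel₀ h6 h3

/-- the number of solutions, uniformly in `E`. -/
theorem card_sols (E t Z : ℕ) (hE : 1 ≤ E) (ht : 1 ≤ t) :
    (sols E t Z).card ≤ 4 ^ t.primeFactors.card * (2 * Nat.log 2 ((Z + t) ^ 2) + 3) := by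
  classical
  rcases Finset.eq_empty_or_nonempty (sols E t Z) with h0 | ⟨x0, hx0⟩
  · rw [h0]; simp
  have hmem : ∀ x ∈ sols E t Z, 1 ≤ x ∧ x ≤ Z ∧ Nat.Coprime x t ∧
      ∃ r : ℕ, x ^ 2 + t ^ 2 = E * r ^ 2 := by
    intro x hx
    rw [sols, Finset.mem_filter, Finset.mem_Icc] at hx
    exact ⟨hx.1.1, hx.1.2, hx.2.1, hx.2.2⟩
  have hEt : Nat.Coprime E t := by
    obtain ⟨_, _, hc, r, hr⟩ := hmem x0 hx0
    exact coprime_E hc hr
  set m : ℕ := t ^ 2 with hm
  have hm0 : m ≠ 0 := by positivity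
  have : NeZero m := ⟨hm0⟩
  have hcop : ∀ {a : ℕ}, Nat.Coprime a t → Nat.Coprime a m := fun h => Nat.Coprime.pow_right 2 h
  set κ : (ZMod m)ˣ := ZMod.unitOfCoprime E (hcop hEt) with hκ
  -- the root attached to a solution
  have hroot : ∀ x : ℕ, ∃ u : (ZMod m)ˣ, x ∈ sols E t Z →
      u ^ 2 = κ ∧ ∀ r : ℕ, x ^ 2 + t ^ 2 = E * r ^ 2 → ((x : ℕ) : ZMod m) = u * (r : ZMod m) := by
    intro x
    by_cases hx : x ∈ sols E t Z
    · obtain ⟨_, _, hc, r, hr⟩ := hmem x hx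
      have hrc := coprime_r hc hr
      set a : (ZMod m)ˣ := ZMod.unitOfCoprime x (hcop hc) with ha
      set b : (ZMod m)ˣ := ZMod.unitOfCoprime r (hcop hrc) with hb
      refine ⟨a * b⁻¹, fun _ => ⟨?_, ?_⟩⟩
      · have h1 : a ^ 2 = κ * b ^ 2 := by
          ext
          rw [Units.val_mul, Units.val_pow_eq_pow_val, Units.val_pow_eq_pow_val, ha, hb, hκ,
            ZMod.coe_unitOfCoprime, ZMod.coe_unitOfCoprime, ZMod.coe_unitOfCoprime]
          have h2 : ((x ^ 2 + t ^ 2 : ℕ) : ZMod m) = ((E * r ^ 2 : ℕ) : ZMod m) := by rw [hr]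
          rw [Nat.cast_add, ← hm, ZMod.natCast_self, add_zero] at h2
          push_cast at h2
          exact h2
        rw [mul_pow, h1, inv_pow, mul_assoc, mul_inv_cancel, mul_one]
      · intro r' hr'
        have hrr : r' = r := by
          have h3 : E * r' ^ 2 = E * r ^ 2 := by rw [← hr, ← hr']
          have h4 : r' ^ 2 = r ^ 2 := Nat.eq_of_mul_eq_mul_left hE h3
          exact Nat.pow_left_injective (n := 2) (by norm_num) h4
        rw [hrr]
        have h5 : ((a * b⁻¹ : (ZMod m)ˣ) : ZMod m) * ((b : (ZMod m)ˣ) : ZMod m)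
            = ((a : (ZMod m)ˣ) : ZMod m) := by
          rw [← Units.val_mul, inv_mul_cancel_right]
        rw [ha, hb, ZMod.coe_unitOfCoprime, ZMod.coe_unitOfCoprime] at h5
        rw [ha, hb]
        exact h5.symm
    · exact ⟨1, fun h => absurd h hx⟩
  choose u hu using hroot
  have himg : (sols E t Z).image u ⊆ Finset.univ.filter (fun w : (ZMod m)ˣ => w ^ 2 = κ) := by
    intro w hw
    rw [Finset.mem_image] at hw
    obtain ⟨x, hx, rfl⟩ := hw
    rw [Finset.mem_filter]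
    exact ⟨Finset.mem_univ _, (hu x hx).1⟩
  have hcardroots : ((sols E t Z).image u).card ≤ 4 ^ t.primeFactors.card := by
    refine (Finset.card_le_card himg).trans ?_
    have h1 := MP_1ea25c_nt.card_roots (d := 2) (by norm_num) m hm0 κ
    rw [Nat.card_eq_fintype_card, Fintype.card_subtype] at h1
    have hpf : m.primeFactors = t.primeFactors := by
      rw [hm, Nat.primeFactors_pow _ (by norm_num)]
    rw [hpf] at h1
    exact h1
  have hfib : ∀ w ∈ (sols E t Z).image u,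
      ((sols E t Z).filter (fun x => u x = w)).card ≤ 2 * Nat.log 2 ((Z + t) ^ 2) + 3 := by
    intro w hw
    rw [Finset.mem_image] at hw
    obtain ⟨x2, hx2, hw2⟩ := hw
    obtain ⟨hx2a, hx2b, hx2c, r2, hr2⟩ := hmem x2 hx2
    refine le_trans ?_ (card_pellZ hE ((Z + t) ^ 2))
    have hV : ∀ x : ℕ, ∃ V : ℤ, x ∈ (sols E t Z).filter (fun x => u x = w) →
        ∃ r1 : ℕ, x ^ 2 + t ^ 2 = E * r1 ^ 2 ∧ (x : ℤ) * r2 - x2 * r1 = (t : ℤ) ^ 2 * V := by
      intro x
      by_cases hx : x ∈ (sols E t Z).filter (fun x => u x = w)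
      · rw [Finset.mem_filter] at hx
        obtain ⟨_, _, hxc, r1, hr1⟩ := hmem x hx.1
        have e1 := (hu x hx.1).2 r1 hr1
        have e2 := (hu x2 hx2).2 r2 hr2
        rw [hx.2] at e1
        rw [hw2] at e2
        have e3 : (((x : ℤ) * r2 - x2 * r1 : ℤ) : ZMod m) = 0 := by
          push_cast
          rw [e1, e2]; ring
        rw [ZMod.intCast_zmod_eq_zero_iff_dvd] at e3
        obtain ⟨V, hV⟩ := e3
        refine ⟨V, fun _ => ⟨r1, hr1, ?_⟩⟩
        rw [hV, hm]; push_cast; ring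
      · exact ⟨0, fun h => absurd h hx⟩
    choose V hV using hV
    have ht0 : (t : ℤ) ≠ 0 := by exact_mod_cast (by omega : t ≠ 0)
    have hr2Z : (x2 : ℤ) ^ 2 + (t : ℤ) ^ 2 = E * (r2 : ℤ) ^ 2 := by exact_mod_cast hr2
    have hrle : ∀ x r : ℕ, x ≤ Z → x ^ 2 + t ^ 2 = E * r ^ 2 → r ≤ Z + t := by
      intro x r hx hr
      apply le_of_pow_le_pow_left₀ (n := 2) (by norm_num) (Nat.zero_le _)
      nlinarith [Nat.zero_le (x * t), Nat.mul_le_mul hx hx]
    apply Finset.card_le_card_of_injOn V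
    · intro x hx
      obtain ⟨r1, hr1, hV1⟩ := hV x hx
      have hxs := hx
      rw [Finset.mem_coe, Finset.mem_filter] at hxs
      obtain ⟨hxa, hxb, hxc, _⟩ := hmem x hxs.1
      have hr1Z : (x : ℤ) ^ 2 + (t : ℤ) ^ 2 = E * (r1 : ℤ) ^ 2 := by exact_mod_cast hr1
      obtain ⟨U, hU, _⟩ := pair_pell ht0 hr1Z hr2Z hV1
      rw [Finset.mem_coe, Finset.mem_filter, Finset.mem_Icc]
      have hr1le : (r1 : ℤ) ≤ Z + t := by exact_mod_cast hrle x r1 hxb hr1
      have hr2le : (r2 : ℤ) ≤ Z + t := by exact_mod_cast hrle x2 r2 hx2b hr2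
      have hxb' : (x : ℤ) ≤ Z + t := by have : (x : ℤ) ≤ Z := by exact_mod_cast hxb
                                        linarith [Int.natCast_nonneg t]
      have hx2b' : (x2 : ℤ) ≤ Z + t := by have : (x2 : ℤ) ≤ Z := by exact_mod_cast hx2b
                                          linarith [Int.natCast_nonneg t]
      have c1 : (x : ℤ) * r2 ≤ ((Z : ℤ) + t) ^ 2 := by
        rw [sq]; apply mul_le_mul hxb' hr2le (by positivity) (by positivity)
      have c2 : (x2 : ℤ) * r1 ≤ ((Z : ℤ) + t) ^ 2 := by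
        rw [sq]; apply mul_le_mul hx2b' hr1le (by positivity) (by positivity)
      have c3 : (0 : ℤ) ≤ (x : ℤ) * r2 := by positivity
      have c4 : (0 : ℤ) ≤ (x2 : ℤ) * r1 := by positivity
      have c5 : (1 : ℤ) ≤ (t : ℤ) ^ 2 := by
        have : (1 : ℤ) ≤ t := by exact_mod_cast ht
        exact one_le_pow₀ this
      push_cast
      refine ⟨⟨?_, ?_⟩, U, by rw [← hU]; ring⟩
      · by_contra hneg
        push Not at hneg
        have c6 := sq_nonneg ((Z : ℤ) + t)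
        have : (t : ℤ) ^ 2 * V x ≤ 1 * V x :=
          mul_le_mul_of_nonpos_right c5 (by linarith)
        linarith
      · by_contra hneg
        push Not at hneg
        have c6 := sq_nonneg ((Z : ℤ) + t)
        have : 1 * V x ≤ (t : ℤ) ^ 2 * V x :=
          mul_le_mul_of_nonneg_right c5 (by linarith)
        linarith
    · intro x hx y hy hxy
      obtain ⟨r1, hr1, hV1⟩ := hV x hx
      obtain ⟨s1, hs1, hW1⟩ := hV y hy
      rw [Finset.mem_coe, Finset.mem_filter] at hx hy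
      have hr1Z : (x : ℤ) ^ 2 + (t : ℤ) ^ 2 = E * (r1 : ℤ) ^ 2 := by exact_mod_cast hr1
      have hs1Z : (y : ℤ) ^ 2 + (t : ℤ) ^ 2 = E * (s1 : ℤ) ^ 2 := by exact_mod_cast hs1
      obtain ⟨U, hU, hUe⟩ := pair_pell ht0 hr1Z hr2Z hV1
      obtain ⟨W, hW, hWe⟩ := pair_pell ht0 hs1Z hr2Z hW1
      -- positivity of `U`, `W`
      have hpos : ∀ (x r : ℕ), x ^ 2 + t ^ 2 = E * r ^ 2 → (0 : ℤ) < E * r * r2 - x * x2 := by
        intro x r hxr
        have h1 : (x * x2) ^ 2 < (E * r * r2) ^ 2 := by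
          have e1 : (E * r * r2) ^ 2 = (x ^ 2 + t ^ 2) * (x2 ^ 2 + t ^ 2) := by
            rw [hxr, hr2]; ring
          rw [e1]
          have : 0 < t ^ 2 := by positivity
          nlinarith [Nat.zero_le (x ^ 2 * t ^ 2), Nat.zero_le (t ^ 2 * x2 ^ 2)]
        have h2 : x * x2 < E * r * r2 := lt_of_pow_lt_pow_left₀ 2 (Nat.zero_le _) h1
        have h3 : ((x * x2 : ℕ) : ℤ) < ((E * r * r2 : ℕ) : ℤ) := by exact_mod_cast h2
        push_cast at h3
        linarith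
      have hU0 : 0 < U := by
        have := hpos x r1 hr1
        rw [hUe] at this
        exact (pos_iff_pos_of_mul_pos this).1 (by positivity)
      have hW0 : 0 < W := by
        have := hpos y s1 hs1
        rw [hWe] at this
        exact (pos_iff_pos_of_mul_pos this).1 (by positivity)
      have hUW : U = W := by
        have : U ^ 2 = W ^ 2 := by rw [hU, hW, hxy]
        exact (pow_left_inj₀ hU0.le hW0.le (by norm_num)).1 this
      have hx1 : (x : ℤ) * (t : ℤ) ^ 2 = E * r2 * ((t : ℤ) ^ 2 * V x) + x2 * ((t : ℤ) ^ 2 * U) := by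
        rw [← hV1, ← hUe]
        linear_combination (x : ℤ) * hr2Z
      have hy1 : (y : ℤ) * (t : ℤ) ^ 2 = E * r2 * ((t : ℤ) ^ 2 * V y) + x2 * ((t : ℤ) ^ 2 * W) := by
        rw [← hW1, ← hWe]
        linear_combination (y : ℤ) * hr2Z
      have : (x : ℤ) * (t : ℤ) ^ 2 = (y : ℤ) * (t : ℤ) ^ 2 := by
        rw [hx1, hy1, hxy, hUW]
      have ht2 : (t : ℤ) ^ 2 ≠ 0 := by positivity
      have := mul_right_cancel₀ ht2 this
      exact_mod_cast this
  calc (sols E t Z).card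
      = ∑ w ∈ (sols E t Z).image u, ((sols E t Z).filter (fun x => u x = w)).card :=
        Finset.card_eq_sum_card_image u _
    _ ≤ ∑ w ∈ (sols E t Z).image u, (2 * Nat.log 2 ((Z + t) ^ 2) + 3) := Finset.sum_le_sum hfib
    _ = ((sols E t Z).image u).card * (2 * Nat.log 2 ((Z + t) ^ 2) + 3) := by
        rw [Finset.sum_const, smul_eq_mul]
    _ ≤ _ := Nat.mul_le_mul_right _ hcardroots

end Pool.Agent.Lib.MP_5ad645_nt.H89
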