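import Mathlib
import Pool.Agent.Lib.MP_5ad645_nt.H89.Pell

/-!
# Counting pairs with `h(x1,t1) h(x2,t2)` a square (MP_5ad645_nt)
-/

set_option autoImplicit false
set_option maxHeartbeats 2000000

open Finset

namespace Pool.Agent.Lib.MP_5ad645_nt.H89

/-- `h = x t (x^2 + t^2)`. -/
def hh (p : ℕ × ℕ) : ℕ := p.1 * p.2 * (p.1 ^ 2 + p.2 ^ 2)

/-- `w = x^2 - t^2`. -/
def ww (p : ℕ × ℕ) : ℕ := p.1 ^ 2 - p.2 ^ 2

/-- coprime pairs `x > t`. -/
def prs (Y : ℕ) : Finset (ℕ × ℕ) :=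
  (Icc 1 Y ×ˢ Icc 1 Y).filter (fun p => p.2 < p.1 ∧ Nat.Coprime p.1 p.2)

theorem mem_prs {Y : ℕ} {p : ℕ × ℕ} : p ∈ prs Y ↔
    (1 ≤ p.1 ∧ p.1 ≤ Y) ∧ (1 ≤ p.2 ∧ p.2 ≤ Y) ∧ p.2 < p.1 ∧ Nat.Coprime p.1 p.2 := by
  rw [prs, mem_filter, mem_product, mem_Icc, mem_Icc]
  tauto

/-- squarefree part. -/
noncomputable def bb (t : ℕ) : ℕ := (Nat.sq_mul_squarefree t).choose

/-- square part. -/
noncomputable def qq (t : ℕ) : ℕ := (Nat.sq_mul_squarefree t).choose_spec.choose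

theorem qb_spec (t : ℕ) : qq t ^ 2 * bb t = t ∧ Squarefree (bb t) :=
  (Nat.sq_mul_squarefree t).choose_spec.choose_spec

theorem qq_pos {t : ℕ} (ht : 1 ≤ t) : 1 ≤ qq t := by
  have h := (qb_spec t).1
  rcases Nat.eq_zero_or_pos (qq t) with h0 | h0
  · rw [h0] at h; simp at h; omega
  · exact h0

theorem bb_pos {t : ℕ} (ht : 1 ≤ t) : 1 ≤ bb t := by
  have h := (qb_spec t).1
  rcases Nat.eq_zero_or_pos (bb t) with h0 | h0
  · rw [h0] at h; simp at h; omega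
  · exact h0

theorem qq_le {t : ℕ} (ht : 1 ≤ t) : qq t ≤ t := by
  have h := (qb_spec t).1
  have h1 := bb_pos ht
  have h2 := qq_pos ht
  calc qq t ≤ qq t ^ 2 * bb t := by nlinarith [Nat.mul_le_mul h2 h2]
    _ = t := h

theorem bb_le {t : ℕ} (ht : 1 ≤ t) : bb t ≤ t := by
  have h := (qb_spec t).1
  have h1 := bb_pos ht
  have h2 := qq_pos ht
  calc bb t ≤ qq t ^ 2 * bb t := Nat.le_mul_of_pos_left _ (by positivity)
    _ = t := h

theorem dvd_of_isSquare {c r n h : ℕ} (hc : Squarefree c) (hr : r ≠ 0) (hn : n ≠ 0) (hh : h ≠ 0)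
    (hcop : Nat.Coprime c n) (hsq : IsSquare (c * r ^ 2 * n * h)) : c ∣ h := by
  have hc0 : c ≠ 0 := hc.ne_zero
  rw [← Nat.prod_primeFactors_of_squarefree hc]
  apply Finset.prod_primes_dvd
  · intro p hp
    exact (Nat.prime_of_mem_primeFactors hp).prime
  · intro p hp
    have hpp := Nat.prime_of_mem_primeFactors hp
    have hpc := Nat.dvd_of_mem_primeFactors hp
    by_contra hph
    have hpn : ¬ p ∣ n := fun h1 => by
      have := Nat.dvd_gcd hpc h1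
      rw [Nat.coprime_iff_gcd_eq_one.1 hcop] at this
      exact hpp.one_lt.ne' (Nat.dvd_one.1 this)
    obtain ⟨w, hw⟩ := hsq
    have h1 : (c * r ^ 2 * n * h).factorization p = (w * w).factorization p := by rw [hw]
    have hw0 : w ≠ 0 := by
      rintro rfl
      simp at hw
      tauto
    rw [Nat.factorization_mul (by positivity) hh, Nat.factorization_mul (by positivity) hn,
      Nat.factorization_mul hc0 (by positivity), Nat.factorization_pow,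
      Nat.factorization_mul hw0 hw0] at h1
    simp only [Finsupp.coe_add, Finsupp.coe_smul, Pi.add_apply, Pi.smul_apply, smul_eq_mul] at h1
    rw [Nat.factorization_eq_zero_of_not_dvd hph, Nat.factorization_eq_zero_of_not_dvd hpn] at h1
    have h2 : c.factorization p ≤ 1 := hc.natFactorization_le_one p
    have h3 : 0 < c.factorization p := hpp.factorization_pos_of_dvd hc0 hpc
    omega

open Classical in
/-- partners of `P` with given square part. -/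
noncomputable def part (h q Y : ℕ) : Finset (ℕ × ℕ) :=
  (prs Y).filter (fun p => IsSquare (h * hh p) ∧ qq p.2 = q)

theorem card_part_le (h q Y : ℕ) (hh0 : h ≠ 0) (hq : 1 ≤ q) :
    (part h q Y).card ≤ ∑ b ∈ h.divisors.filter (fun b => q ^ 2 * b ≤ Y),
      ∑ c ∈ h.divisors, (sols c (q ^ 2 * b) Y).card := by
  classical
  have hsub : part h q Y ⊆ (h.divisors.filter (fun b => q ^ 2 * b ≤ Y)).biUnion
      (fun b => h.divisors.biUnion (fun c =>
      (sols c (q ^ 2 * b) Y).image (fun x => (x, q ^ 2 * b)))) := by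
    intro p hp
    rw [part, mem_filter, mem_prs] at hp
    obtain ⟨⟨⟨h1, h2⟩, ⟨h3, h4⟩, h5, h6⟩, h7, h8⟩ := hp
    obtain ⟨x, t⟩ := p
    simp only at h1 h2 h3 h4 h5 h6 h7 h8
    have hqt := qb_spec t
    rw [h8] at hqt
    set b := bb t with hb
    have hst := qb_spec (x ^ 2 + t ^ 2)
    set c := bb (x ^ 2 + t ^ 2) with hc
    set r := qq (x ^ 2 + t ^ 2) with hr
    have hx0 : x ≠ 0 := by omega
    have ht0 : t ≠ 0 := by omega
    have hs0 : x ^ 2 + t ^ 2 ≠ 0 := by positivity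
    have hr0 : r ≠ 0 := by
      have := qq_pos (t := x ^ 2 + t ^ 2) (Nat.one_le_iff_ne_zero.2 hs0)
      omega
    have cop1 : Nat.Coprime t (x ^ 2 + t ^ 2) := by
      have : Nat.Coprime t (x ^ 2) := Nat.Coprime.pow_right 2 h6.symm
      rw [sq t]
      exact (Nat.coprime_add_mul_left_right t (x ^ 2) t).2 this
    have cop2 : Nat.Coprime x (x ^ 2 + t ^ 2) := by
      have : Nat.Coprime x (t ^ 2) := Nat.Coprime.pow_right 2 h6
      rw [sq x, add_comm]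
      exact (Nat.coprime_add_mul_left_right x (t ^ 2) x).2 this
    have hbd : b ∣ h := by
      have cop3 : Nat.Coprime t (x * (x ^ 2 + t ^ 2)) := Nat.Coprime.mul_right h6.symm cop1
      have hbt : b ∣ t := ⟨q ^ 2, by rw [mul_comm]; exact hqt.1.symm⟩
      refine dvd_of_isSquare (r := q) (n := x * (x ^ 2 + t ^ 2)) hqt.2 (by omega)
        (by positivity) hh0 (Nat.Coprime.coprime_dvd_left hbt cop3) ?_
      have e : b * q ^ 2 * (x * (x ^ 2 + t ^ 2)) * h = h * hh (x, t) := by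
        unfold hh
        simp only
        calc b * q ^ 2 * (x * (x ^ 2 + t ^ 2)) * h
            = (q ^ 2 * b) * (x * (x ^ 2 + t ^ 2)) * h := by ring
          _ = t * (x * (x ^ 2 + t ^ 2)) * h := by rw [hqt.1]
          _ = _ := by ring
      rw [e]; exact h7
    have hcd : c ∣ h := by
      have cop3 : Nat.Coprime (x ^ 2 + t ^ 2) (x * t) :=
        Nat.Coprime.mul_right cop2.symm cop1.symm
      have hct : c ∣ x ^ 2 + t ^ 2 := ⟨r ^ 2, by rw [mul_comm]; exact hst.1.symm⟩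
      refine dvd_of_isSquare (r := r) (n := x * t) hst.2 hr0
        (by positivity) hh0 (Nat.Coprime.coprime_dvd_left hct cop3) ?_
      have e : c * r ^ 2 * (x * t) * h = h * hh (x, t) := by
        unfold hh
        simp only
        calc c * r ^ 2 * (x * t) * h
            = (r ^ 2 * c) * (x * t) * h := by ring
          _ = (x ^ 2 + t ^ 2) * (x * t) * h := by rw [hst.1]
          _ = _ := by ring
      rw [e]; exact h7
    rw [mem_biUnion]
    refine ⟨b, mem_filter.2 ⟨Nat.mem_divisors.2 ⟨hbd, hh0⟩, by rw [hqt.1]; exact h4⟩, ?_⟩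
    rw [mem_biUnion]
    refine ⟨c, Nat.mem_divisors.2 ⟨hcd, hh0⟩, ?_⟩
    rw [mem_image]
    refine ⟨x, ?_, by rw [hqt.1]⟩
    rw [sols, mem_filter, mem_Icc, hqt.1]
    exact ⟨⟨h1, h2⟩, h6, r, by rw [mul_comm]; exact hst.1.symm⟩
  refine (card_le_card hsub).trans ?_
  refine card_biUnion_le.trans ?_
  apply sum_le_sum
  intro b _
  refine card_biUnion_le.trans ?_
  apply sum_le_sum
  intro c _
  exact card_image_le

/-- uniform bound for the number of partners. -/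
theorem card_part {ε : ℝ} (hε : 0 < ε) : ∃ C : ℝ, 0 < C ∧ ∀ (Y q : ℕ) (P : ℕ × ℕ), 1 ≤ Y →
    P ∈ prs Y → 1 ≤ q → ((part (hh P) q Y).card : ℝ) ≤ C * (Y : ℝ) ^ ε := by
  obtain ⟨C1, hC1, hd⟩ := MP_1ea25c_nt.H61.card_divisors_le (ε := ε / 24) (by positivity)
  obtain ⟨C2, hC2, hw⟩ := MP_1ea25c_nt.H61.pow_card_primeFactors_le (K := 4) (by norm_num)
    (ε := ε / 4) (by positivity)
  -- the logarithm
  obtain ⟨C3, hC3, hl⟩ : ∃ C3 : ℝ, 0 < C3 ∧ ∀ Y : ℕ, 1 ≤ Y →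
      (2 * (Nat.log 2 ((Y + Y) ^ 2) : ℝ) + 3) ≤ C3 * (Y : ℝ) ^ (ε / 4) := by
    refine ⟨7 + 16 / ε / Real.log 2, by positivity, fun Y hY => ?_⟩
    have hYr : (1 : ℝ) ≤ Y := by exact_mod_cast hY
    have h1 : (Nat.log 2 ((Y + Y) ^ 2) : ℝ) ≤ Real.log (((Y + Y) ^ 2 : ℕ) : ℝ) / Real.log 2 := by
      have := Real.natLog_le_logb ((Y + Y) ^ 2) 2
      rw [Real.logb] at this
      exact_mod_cast this
    have h2 : Real.log (((Y + Y) ^ 2 : ℕ) : ℝ) = 2 * Real.log 2 + 2 * Real.log Y := by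
      push_cast
      rw [Real.log_pow, ← two_mul, Real.log_mul (by norm_num) (by positivity)]
      push_cast; ring
    have h3 : Real.log Y ≤ (Y : ℝ) ^ (ε / 4) / (ε / 4) := Real.log_le_rpow_div (by positivity) (by positivity)
    have hlog2 : 0 < Real.log 2 := Real.log_pos (by norm_num)
    have h4 : (1 : ℝ) ≤ (Y : ℝ) ^ (ε / 4) := Real.one_le_rpow hYr (by positivity)
    have h5 : Real.log (((Y + Y) ^ 2 : ℕ) : ℝ) / Real.log 2 = 2 + 2 * Real.log Y / Real.log 2 := by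
      rw [h2]; field_simp
    rw [h5] at h1
    have h6 : 2 * Real.log Y / Real.log 2 ≤ 8 / ε / Real.log 2 * (Y : ℝ) ^ (ε / 4) := by
      rw [div_mul_eq_mul_div]
      apply div_le_div_of_nonneg_right _ hlog2.le
      calc 2 * Real.log Y ≤ 2 * ((Y : ℝ) ^ (ε / 4) / (ε / 4)) := by linarith
        _ = 8 / ε * (Y : ℝ) ^ (ε / 4) := by field_simp; ring
    have h7 : 16 / ε / Real.log 2 = 2 * (8 / ε / Real.log 2) := by ring
    rw [h7]
    nlinarith
  refine ⟨(C1 * 2 ^ (ε / 24)) ^ 2 * (C2 * C3), by positivity, ?_⟩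
  intro Y q P hY hP hq
  have hYr : (1 : ℝ) ≤ Y := by exact_mod_cast hY
  have hY0 : (0 : ℝ) < Y := by linarith
  rw [mem_prs] at hP
  obtain ⟨⟨hP1, hP2⟩, ⟨hP3, hP4⟩, _, _⟩ := hP
  have hh0 : hh P ≠ 0 := by
    unfold hh
    positivity
  have hhle : (hh P : ℝ) ≤ 2 * (Y : ℝ) ^ (4 : ℕ) := by
    have : hh P ≤ 2 * Y ^ 4 := by
      unfold hh
      calc P.1 * P.2 * (P.1 ^ 2 + P.2 ^ 2) ≤ Y * Y * (Y ^ 2 + Y ^ 2) := by gcongr
        _ = 2 * Y ^ 4 := by ring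
    exact_mod_cast this
  set D : ℝ := ((hh P).divisors.card : ℝ) with hD
  have hDle : D ≤ C1 * 2 ^ (ε / 24) * (Y : ℝ) ^ (ε / 6) := by
    calc D ≤ C1 * (hh P : ℝ) ^ (ε / 24) := hd _ hh0
      _ ≤ C1 * (2 * (Y : ℝ) ^ (4 : ℕ)) ^ (ε / 24) := by gcongr
      _ = C1 * 2 ^ (ε / 24) * (Y : ℝ) ^ (ε / 6) := by
        rw [Real.mul_rpow (by norm_num) (by positivity), ← Real.rpow_natCast, ← Real.rpow_mul hY0.le]
        have : ((4 : ℕ) : ℝ) * (ε / 24) = ε / 6 := by push_cast; ring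
        rw [this]; ring
  have hsol : ∀ b ∈ (hh P).divisors.filter (fun b => q ^ 2 * b ≤ Y), ∀ c ∈ (hh P).divisors,
      ((sols c (q ^ 2 * b) Y).card : ℝ) ≤ C2 * C3 * (Y : ℝ) ^ (ε / 2) := by
    intro b hb c hc
    rw [mem_filter] at hb
    obtain ⟨hb, hlt⟩ := hb
    have hb1 : 1 ≤ b := Nat.pos_of_mem_divisors hb
    have hc1 : 1 ≤ c := Nat.pos_of_mem_divisors hc
    have ht1 : 1 ≤ q ^ 2 * b := Nat.one_le_iff_ne_zero.2 (by positivity)
    have h1 := card_sols c (q ^ 2 * b) Y hc1 ht1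
    have h2 : ((sols c (q ^ 2 * b) Y).card : ℝ) ≤
        4 ^ (q ^ 2 * b).primeFactors.card * (2 * (Nat.log 2 ((Y + q ^ 2 * b) ^ 2) : ℝ) + 3) := by
      exact_mod_cast h1
    have h3 : (4 : ℝ) ^ (q ^ 2 * b).primeFactors.card ≤ C2 * (Y : ℝ) ^ (ε / 4) := by
      refine (hw _ (by omega)).trans ?_
      have : ((q ^ 2 * b : ℕ) : ℝ) ≤ Y := by exact_mod_cast hlt
      gcongr
    have h4 : (2 * (Nat.log 2 ((Y + q ^ 2 * b) ^ 2) : ℝ) + 3) ≤ C3 * (Y : ℝ) ^ (ε / 4) := by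
      refine le_trans ?_ (hl Y hY)
      have : Nat.log 2 ((Y + q ^ 2 * b) ^ 2) ≤ Nat.log 2 ((Y + Y) ^ 2) := by
        apply Nat.log_mono_right
        gcongr
      have h5 : (Nat.log 2 ((Y + q ^ 2 * b) ^ 2) : ℝ) ≤ (Nat.log 2 ((Y + Y) ^ 2) : ℝ) := by
        exact_mod_cast this
      linarith
    calc _ ≤ _ := h2
      _ ≤ (C2 * (Y : ℝ) ^ (ε / 4)) * (C3 * (Y : ℝ) ^ (ε / 4)) := by gcongr
      _ = C2 * C3 * (Y : ℝ) ^ (ε / 2) := by
        have : (Y : ℝ) ^ (ε / 2) = (Y : ℝ) ^ (ε / 4) * (Y : ℝ) ^ (ε / 4) := by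
          rw [← Real.rpow_add hY0]; congr 1; ring
        rw [this]; ring
  have hD0 : 0 ≤ D := Nat.cast_nonneg _
  have hfc : (((hh P).divisors.filter (fun b => q ^ 2 * b ≤ Y)).card : ℝ) ≤ D := by
    rw [hD]
    exact_mod_cast card_filter_le _ _
  have hB0 : 0 ≤ C2 * C3 * (Y : ℝ) ^ (ε / 2) := by positivity
  have hsum : ((part (hh P) q Y).card : ℝ) ≤ D * (D * (C2 * C3 * (Y : ℝ) ^ (ε / 2))) := by
    have h1 : ((part (hh P) q Y).card : ℝ) ≤
        ∑ b ∈ (hh P).divisors.filter (fun b => q ^ 2 * b ≤ Y),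
          ∑ c ∈ (hh P).divisors, ((sols c (q ^ 2 * b) Y).card : ℝ) := by
      exact_mod_cast card_part_le (hh P) q Y hh0 hq
    refine h1.trans ?_
    calc _ ≤ ∑ b ∈ (hh P).divisors.filter (fun b => q ^ 2 * b ≤ Y),
          ∑ c ∈ (hh P).divisors, (C2 * C3 * (Y : ℝ) ^ (ε / 2)) :=
        sum_le_sum (fun b hb => sum_le_sum (fun c hc => hsol b hb c hc))
      _ = (((hh P).divisors.filter (fun b => q ^ 2 * b ≤ Y)).card : ℝ) *
          (D * (C2 * C3 * (Y : ℝ) ^ (ε / 2))) := by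
        rw [sum_const, sum_const, nsmul_eq_mul, nsmul_eq_mul]
      _ ≤ _ := by gcongr
  have hY1 : (Y : ℝ) ^ (ε / 6) * (Y : ℝ) ^ (ε / 6) * (Y : ℝ) ^ (ε / 2) ≤ (Y : ℝ) ^ ε := by
    rw [← Real.rpow_add hY0, ← Real.rpow_add hY0]
    apply Real.rpow_le_rpow_of_exponent_le hYr
    linarith
  calc ((part (hh P) q Y).card : ℝ) ≤ D * (D * (C2 * C3 * (Y : ℝ) ^ (ε / 2))) := hsum
    _ ≤ (C1 * 2 ^ (ε / 24) * (Y : ℝ) ^ (ε / 6)) * ((C1 * 2 ^ (ε / 24) * (Y : ℝ) ^ (ε / 6)) *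
        (C2 * C3 * (Y : ℝ) ^ (ε / 2))) := by gcongr
    _ = (C1 * 2 ^ (ε / 24)) ^ 2 * (C2 * C3) *
        ((Y : ℝ) ^ (ε / 6) * (Y : ℝ) ^ (ε / 6) * (Y : ℝ) ^ (ε / 2)) := by ring
    _ ≤ _ := by gcongr

end Pool.Agent.Lib.MP_5ad645_nt.H89
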