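import Mathlib
import Pool.Agent.Lib.MP_5ad645_nt.H89.Count

/-!
# The weighted sum and the bound for `R(Y)` (MP_5ad645_nt)
-/

set_option autoImplicit false
set_option maxHeartbeats 2000000

open Finset

namespace Pool.Agent.Lib.MP_5ad645_nt.H89

/-- harmonic sum. -/
noncomputable def HY (Y : ℕ) : ℝ := ∑ i ∈ Icc 1 Y, (1 : ℝ) / (i : ℝ)

theorem HY_nonneg (Y : ℕ) : 0 ≤ HY Y := by
  unfold HY
  exact sum_nonneg (fun i _ => by positivity)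

theorem HY_le (Y : ℕ) : HY Y ≤ 1 + Real.log Y := by
  have h := harmonic_le_one_add_log Y
  have e : HY Y = ((harmonic Y : ℚ) : ℝ) := by
    unfold HY
    rw [harmonic_eq_sum_Icc]
    push_cast
    apply sum_congr rfl
    intro i _
    rw [one_div]
  rw [e]; exact h

theorem outer_q (Y : ℕ) : ∑ t ∈ Icc 1 Y, (qq t : ℝ) / (t : ℝ) ≤ HY Y * HY Y := by
  classical
  have h1 : ∀ t ∈ Icc 1 Y, (qq t : ℝ) / (t : ℝ) = (fun z : ℕ × ℕ => (1 : ℝ) / (z.1 : ℝ) * (1 / (z.2 : ℝ)))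
      (qq t, bb t) := by
    intro t ht
    rw [mem_Icc] at ht
    have hq := qq_pos ht.1
    have hb := bb_pos ht.1
    have hs := (qb_spec t).1
    have hq0 : (qq t : ℝ) ≠ 0 := by positivity
    have hb0 : (bb t : ℝ) ≠ 0 := by positivity
    have hs' : (t : ℝ) = (qq t : ℝ) ^ 2 * (bb t : ℝ) := by exact_mod_cast hs.symm
    show (qq t : ℝ) / (t : ℝ) = 1 / (qq t : ℝ) * (1 / (bb t : ℝ))
    rw [hs']
    field_simp
  rw [sum_congr rfl h1]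
  have hinj : Set.InjOn (fun t => (qq t, bb t)) (Icc 1 Y : Finset ℕ) := by
    intro s _ t _ hst
    simp only [Prod.mk.injEq] at hst
    have hs := (qb_spec s).1
    have ht := (qb_spec t).1
    rw [← hs, ← ht, hst.1, hst.2]
  rw [← sum_image (f := fun z : ℕ × ℕ => (1 : ℝ) / (z.1 : ℝ) * (1 / (z.2 : ℝ)))
    (g := fun t => (qq t, bb t)) (s := Icc 1 Y) hinj]
  have hsub : (Icc 1 Y).image (fun t => (qq t, bb t)) ⊆ Icc 1 Y ×ˢ Icc 1 Y := by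
    intro z hz
    rw [mem_image] at hz
    obtain ⟨t, ht, rfl⟩ := hz
    rw [mem_Icc] at ht
    rw [mem_product, mem_Icc, mem_Icc]
    exact ⟨⟨qq_pos ht.1, (qq_le ht.1).trans ht.2⟩, ⟨bb_pos ht.1, (bb_le ht.1).trans ht.2⟩⟩
  refine (sum_le_sum_of_subset_of_nonneg hsub (fun _ _ _ => by positivity)).trans ?_
  rw [HY, sum_mul_sum, sum_product]

theorem ww_pos {Y : ℕ} {p : ℕ × ℕ} (hp : p ∈ prs Y) : 1 ≤ ww p := by
  rw [mem_prs] at hp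
  unfold ww
  have : p.2 ^ 2 < p.1 ^ 2 := by
    apply Nat.pow_lt_pow_left hp.2.2.1 (by norm_num)
  omega

/-- the outer sum. -/
theorem outer_sum (Y : ℕ) : ∑ p ∈ prs Y, (qq p.2 : ℝ) / (ww p : ℝ) ≤ HY Y * HY Y * HY Y := by
  classical
  have h1 : ∀ p ∈ prs Y, (qq p.2 : ℝ) / (ww p : ℝ) ≤
      (fun z : ℕ × ℕ => (1 : ℝ) / (z.1 : ℝ) * ((qq z.2 : ℝ) / (z.2 : ℝ))) (p.1 - p.2, p.2) := by
    intro p hp
    have hw := ww_pos hp
    rw [mem_prs] at hp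
    obtain ⟨⟨h1, h2⟩, ⟨h3, h4⟩, h5, h6⟩ := hp
    have hy : 1 ≤ p.1 - p.2 := by omega
    have hwle : (p.1 - p.2) * p.2 ≤ ww p := by
      unfold ww
      rw [Nat.sq_sub_sq, mul_comm]
      exact Nat.mul_le_mul_right _ (by omega)
    show (qq p.2 : ℝ) / (ww p : ℝ) ≤ 1 / ((p.1 - p.2 : ℕ) : ℝ) * ((qq p.2 : ℝ) / (p.2 : ℝ))
    have e : 1 / ((p.1 - p.2 : ℕ) : ℝ) * ((qq p.2 : ℝ) / (p.2 : ℝ)) =
        (qq p.2 : ℝ) / (((p.1 - p.2) * p.2 : ℕ) : ℝ) := by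
      push_cast
      rw [div_mul_div_comm, one_mul]
    rw [e]
    apply div_le_div_of_nonneg_left (by positivity) _ (by exact_mod_cast hwle)
    have : 1 ≤ (p.1 - p.2) * p.2 := Nat.mul_pos hy h3
    exact_mod_cast this
  refine (sum_le_sum h1).trans ?_
  have hinj : Set.InjOn (fun p : ℕ × ℕ => (p.1 - p.2, p.2)) (prs Y : Finset (ℕ × ℕ)) := by
    intro s hs t ht hst
    rw [mem_coe, mem_prs] at hs ht
    simp only [Prod.mk.injEq] at hst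
    obtain ⟨e1, e2⟩ := hst
    apply Prod.ext
    · omega
    · exact e2
  rw [← sum_image (f := fun z : ℕ × ℕ => (1 : ℝ) / (z.1 : ℝ) * ((qq z.2 : ℝ) / (z.2 : ℝ)))
    (g := fun p : ℕ × ℕ => (p.1 - p.2, p.2)) (s := prs Y) hinj]
  have hsub : (prs Y).image (fun p : ℕ × ℕ => (p.1 - p.2, p.2)) ⊆ Icc 1 Y ×ˢ Icc 1 Y := by
    intro z hz
    rw [mem_image] at hz
    obtain ⟨p, hp, rfl⟩ := hz
    rw [mem_prs] at hp
    rw [mem_product, mem_Icc, mem_Icc]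
    simp only
    omega
  refine (sum_le_sum_of_subset_of_nonneg hsub (fun _ _ _ => by positivity)).trans ?_
  rw [sum_product]
  have e : ∑ x ∈ Icc 1 Y, ∑ y ∈ Icc 1 Y, (1 : ℝ) / (x : ℝ) * ((qq y : ℝ) / (y : ℝ)) =
      HY Y * ∑ t ∈ Icc 1 Y, (qq t : ℝ) / (t : ℝ) := by
    rw [HY, sum_mul_sum]
  calc _ = HY Y * ∑ t ∈ Icc 1 Y, (qq t : ℝ) / (t : ℝ) := e
    _ ≤ HY Y * (HY Y * HY Y) := mul_le_mul_of_nonneg_left (outer_q Y) (HY_nonneg Y)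
    _ = _ := by ring

open Classical in
/-- the set of pairs of pairs. -/
noncomputable def Rset (Y : ℕ) : Finset ((ℕ × ℕ) × (ℕ × ℕ)) :=
  (prs Y ×ˢ prs Y).filter (fun z => IsSquare (hh z.1 * hh z.2) ∧ ww z.1 * ww z.2 ≤ Y)

theorem mem_Rset {Y : ℕ} {z : (ℕ × ℕ) × (ℕ × ℕ)} : z ∈ Rset Y ↔
    (z.1 ∈ prs Y ∧ z.2 ∈ prs Y) ∧ IsSquare (hh z.1 * hh z.2) ∧ ww z.1 * ww z.2 ≤ Y := by
  classical
  rw [Rset, mem_filter, mem_product]

/-- the inner sum. -/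
theorem inner_sum {K : ℝ} (Y : ℕ) (P : ℕ × ℕ)
    (hK : ∀ q : ℕ, 1 ≤ q → ((part (hh P) q Y).card : ℝ) ≤ K) :
    ∑ p ∈ (prs Y).filter (fun p => IsSquare (hh P * hh p)), (1 : ℝ) / (qq p.2 : ℝ) ≤ K * HY Y := by
  classical
  have hmap : ∀ p ∈ (prs Y).filter (fun p => IsSquare (hh P * hh p)), qq p.2 ∈ Icc 1 Y := by
    intro p hp
    rw [mem_filter, mem_prs] at hp
    obtain ⟨⟨_, ⟨h3, h4⟩, _, _⟩, _⟩ := hp
    rw [mem_Icc]
    exact ⟨qq_pos h3, (qq_le h3).trans h4⟩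
  rw [← sum_fiberwise_of_maps_to hmap]
  rw [HY, mul_sum]
  apply sum_le_sum
  intro q hq
  rw [mem_Icc] at hq
  have e : ∀ p ∈ ((prs Y).filter (fun p => IsSquare (hh P * hh p))).filter (fun p => qq p.2 = q),
      (1 : ℝ) / (qq p.2 : ℝ) = 1 / (q : ℝ) := by
    intro p hp
    rw [mem_filter] at hp
    rw [hp.2]
  rw [sum_congr rfl e, sum_const, nsmul_eq_mul]
  have e2 : ((prs Y).filter (fun p => IsSquare (hh P * hh p))).filter (fun p => qq p.2 = q) =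
      part (hh P) q Y := by
    rw [part, filter_filter]
  rw [e2]
  exact mul_le_mul_of_nonneg_right (hK q hq.1) (by positivity)

/-- the weighted sum over `R`. -/
theorem wsum {K : ℝ} (hK0 : 0 ≤ K) (Y : ℕ)
    (hK : ∀ P ∈ prs Y, ∀ q : ℕ, 1 ≤ q → ((part (hh P) q Y).card : ℝ) ≤ K) :
    ∑ z ∈ Rset Y, (qq z.1.2 : ℝ) / ((qq z.2.2 : ℝ) * (ww z.1 : ℝ)) ≤ K * HY Y ^ 4 := by
  classical
  have hsub : Rset Y ⊆
      ((prs Y).sigma (fun P => (prs Y).filter (fun p => IsSquare (hh P * hh p)))).image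
      (fun s => (s.1, s.2)) := by
    intro z hz
    rw [mem_Rset] at hz
    rw [mem_image]
    refine ⟨⟨z.1, z.2⟩, ?_, rfl⟩
    rw [mem_sigma, mem_filter]
    exact ⟨hz.1.1, hz.1.2, hz.2.1⟩
  refine (sum_le_sum_of_subset_of_nonneg hsub (fun _ _ _ => by positivity)).trans ?_
  rw [sum_image, sum_sigma]
  swap
  · rintro ⟨a, b⟩ _ ⟨c, d⟩ _ h
    simp only [Prod.mk.injEq] at h
    obtain ⟨rfl, rfl⟩ := h
    rfl
  have h1 : ∀ P ∈ prs Y, ∑ p ∈ (prs Y).filter (fun p => IsSquare (hh P * hh p)),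
      (qq P.2 : ℝ) / ((qq p.2 : ℝ) * (ww P : ℝ)) ≤ (qq P.2 : ℝ) / (ww P : ℝ) * (K * HY Y) := by
    intro P hP
    have e : ∀ p ∈ (prs Y).filter (fun p => IsSquare (hh P * hh p)),
        (qq P.2 : ℝ) / ((qq p.2 : ℝ) * (ww P : ℝ)) =
          (qq P.2 : ℝ) / (ww P : ℝ) * (1 / (qq p.2 : ℝ)) := by
      intro p _
      rw [div_mul_div_comm, mul_one, mul_comm (qq p.2 : ℝ)]
    rw [sum_congr rfl e, ← mul_sum]
    exact mul_le_mul_of_nonneg_left (inner_sum Y P (hK P hP)) (by positivity)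
  refine (sum_le_sum h1).trans ?_
  rw [← sum_mul]
  have hH := HY_nonneg Y
  calc _ ≤ (HY Y * HY Y * HY Y) * (K * HY Y) := by
        apply mul_le_mul_of_nonneg_right (outer_sum Y) (by positivity)
    _ = _ := by ring

theorem card_Rset_le {K : ℝ} (hK0 : 0 ≤ K) (Y : ℕ) (hY : 1 ≤ Y)
    (hK : ∀ P ∈ prs Y, ∀ q : ℕ, 1 ≤ q → ((part (hh P) q Y).card : ℝ) ≤ K) :
    ((Rset Y).card : ℝ) ≤ Real.sqrt Y * (K * HY Y ^ 4) := by
  classical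
  have hYr : (1 : ℝ) ≤ Y := by exact_mod_cast hY
  -- AM-GM
  have h1 : ∀ z ∈ Rset Y, (1 : ℝ) ≤ Real.sqrt Y / 2 *
      ((qq z.1.2 : ℝ) / ((qq z.2.2 : ℝ) * (ww z.1 : ℝ)) +
        (qq z.2.2 : ℝ) / ((qq z.1.2 : ℝ) * (ww z.2 : ℝ))) := by
    intro z hz
    rw [mem_Rset] at hz
    obtain ⟨⟨hz1, hz2⟩, _, hz3⟩ := hz
    have hw1 := ww_pos hz1
    have hw2 := ww_pos hz2
    have hq1 : 1 ≤ qq z.1.2 := qq_pos (mem_prs.1 hz1).2.1.1
    have hq2 : 1 ≤ qq z.2.2 := qq_pos (mem_prs.1 hz2).2.1.1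
    have hq1' : (1 : ℝ) ≤ (qq z.1.2 : ℝ) := by exact_mod_cast hq1
    have hq2' : (1 : ℝ) ≤ (qq z.2.2 : ℝ) := by exact_mod_cast hq2
    have hw1' : (1 : ℝ) ≤ (ww z.1 : ℝ) := by exact_mod_cast hw1
    have hw2' : (1 : ℝ) ≤ (ww z.2 : ℝ) := by exact_mod_cast hw2
    have hw12 : (ww z.1 : ℝ) * (ww z.2 : ℝ) ≤ Y := by exact_mod_cast hz3
    set q1 : ℝ := (qq z.1.2 : ℝ)
    set q2 : ℝ := (qq z.2.2 : ℝ)
    set w1 : ℝ := (ww z.1 : ℝ)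
    set w2 : ℝ := (ww z.2 : ℝ)
    set a := q1 / (q2 * w1) with ha
    set b := q2 / (q1 * w2) with hb
    have ha0 : 0 < a := by positivity
    have hb0 : 0 < b := by positivity
    have hab : a * b = 1 / (w1 * w2) := by
      rw [ha, hb]; field_simp
    have hab2 : 1 / (Y : ℝ) ≤ a * b := by
      rw [hab]
      apply div_le_div_of_nonneg_left (by norm_num) (by positivity) hw12
    have hs : Real.sqrt Y * Real.sqrt Y = Y := Real.mul_self_sqrt (by positivity)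
    have hs0 : 0 < Real.sqrt Y := Real.sqrt_pos.2 (by positivity)
    have h2 : (1 : ℝ) ≤ (Y : ℝ) * (a * b) := by
      have := mul_le_mul_of_nonneg_left hab2 (show (0 : ℝ) ≤ Y by positivity)
      rwa [mul_one_div_cancel (by positivity)] at this
    have h3 : (1 : ℝ) ^ 2 ≤ (Real.sqrt Y / 2 * (a + b)) ^ 2 := by
      have h4 : 4 * (a * b) ≤ (a + b) ^ 2 := by nlinarith [sq_nonneg (a - b)]
      calc (1 : ℝ) ^ 2 ≤ (Y : ℝ) * (a * b) := by simpa using h2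
        _ ≤ (Y : ℝ) * ((a + b) ^ 2 / 4) := by
          apply mul_le_mul_of_nonneg_left _ (by positivity)
          linarith
        _ = (Real.sqrt Y * Real.sqrt Y) * ((a + b) ^ 2 / 4) := by rw [hs]
        _ = _ := by ring
    exact (pow_le_pow_iff_left₀ (by norm_num) (by positivity) (by norm_num)).1 h3
  have hsw : ∑ z ∈ Rset Y, (qq z.2.2 : ℝ) / ((qq z.1.2 : ℝ) * (ww z.2 : ℝ)) =
      ∑ z ∈ Rset Y, (qq z.1.2 : ℝ) / ((qq z.2.2 : ℝ) * (ww z.1 : ℝ)) := by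
    apply sum_nbij' (fun z => z.swap) (fun z => z.swap)
    · intro z hz
      rw [mem_Rset] at hz ⊢
      simp only [Prod.fst_swap, Prod.snd_swap]
      refine ⟨⟨hz.1.2, hz.1.1⟩, ?_, ?_⟩
      · rw [mul_comm]; exact hz.2.1
      · rw [mul_comm]; exact hz.2.2
    · intro z hz
      rw [mem_Rset] at hz ⊢
      simp only [Prod.fst_swap, Prod.snd_swap]
      refine ⟨⟨hz.1.2, hz.1.1⟩, ?_, ?_⟩
      · rw [mul_comm]; exact hz.2.1
      · rw [mul_comm]; exact hz.2.2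
    · intro z _; simp
    · intro z _; simp
    · intro z _; simp
  have hw := wsum hK0 Y hK
  calc ((Rset Y).card : ℝ) = ∑ z ∈ Rset Y, (1 : ℝ) := by simp
    _ ≤ ∑ z ∈ Rset Y, Real.sqrt Y / 2 *
      ((qq z.1.2 : ℝ) / ((qq z.2.2 : ℝ) * (ww z.1 : ℝ)) +
        (qq z.2.2 : ℝ) / ((qq z.1.2 : ℝ) * (ww z.2 : ℝ))) := sum_le_sum h1
    _ = Real.sqrt Y * ∑ z ∈ Rset Y, (qq z.1.2 : ℝ) / ((qq z.2.2 : ℝ) * (ww z.1 : ℝ)) := by
      rw [← mul_sum, sum_add_distrib, hsw]; ring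
    _ ≤ _ := mul_le_mul_of_nonneg_left hw (Real.sqrt_nonneg _)

/-- the bound for `R(Y)`. -/
theorem card_Rset {ε : ℝ} (hε : 0 < ε) : ∃ C : ℝ, 0 < C ∧ ∀ Y : ℕ, 1 ≤ Y →
    ((Rset Y).card : ℝ) ≤ C * (Y : ℝ) ^ (1 / 2 + ε) := by
  obtain ⟨C1, hC1, h1⟩ := card_part (ε := ε / 2) (by positivity)
  refine ⟨C1 * (1 + 8 / ε) ^ 4, by positivity, fun Y hY => ?_⟩
  have hYr : (1 : ℝ) ≤ Y := by exact_mod_cast hY
  have hY0 : (0 : ℝ) < Y := by linarith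
  have h2 := card_Rset_le (K := C1 * (Y : ℝ) ^ (ε / 2)) (by positivity) Y hY
    (fun P hP q hq => h1 Y q P hY hP hq)
  have h3 : HY Y ≤ (1 + 8 / ε) * (Y : ℝ) ^ (ε / 8) := by
    have h4 : Real.log Y ≤ (Y : ℝ) ^ (ε / 8) / (ε / 8) := Real.log_le_rpow_div (by positivity) (by positivity)
    have h5 : (1 : ℝ) ≤ (Y : ℝ) ^ (ε / 8) := Real.one_le_rpow hYr (by positivity)
    calc HY Y ≤ 1 + Real.log Y := HY_le Y
      _ ≤ (Y : ℝ) ^ (ε / 8) + (Y : ℝ) ^ (ε / 8) / (ε / 8) := by linarith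
      _ = _ := by field_simp
  have h4 : HY Y ^ 4 ≤ ((1 + 8 / ε) * (Y : ℝ) ^ (ε / 8)) ^ 4 :=
    pow_le_pow_left₀ (HY_nonneg Y) h3 4
  have h5 : ((1 + 8 / ε) * (Y : ℝ) ^ (ε / 8)) ^ 4 = (1 + 8 / ε) ^ 4 * (Y : ℝ) ^ (ε / 2) := by
    rw [mul_pow, ← Real.rpow_natCast ((Y : ℝ) ^ (ε / 8)), ← Real.rpow_mul hY0.le]
    congr 2
    push_cast; ring
  rw [h5] at h4
  refine h2.trans ?_
  calc Real.sqrt Y * (C1 * (Y : ℝ) ^ (ε / 2) * HY Y ^ 4)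
      ≤ Real.sqrt Y * (C1 * (Y : ℝ) ^ (ε / 2) * ((1 + 8 / ε) ^ 4 * (Y : ℝ) ^ (ε / 2))) := by gcongr
    _ = C1 * (1 + 8 / ε) ^ 4 * ((Y : ℝ) ^ (1 / 2 : ℝ) * (Y : ℝ) ^ (ε / 2) * (Y : ℝ) ^ (ε / 2)) := by
      rw [Real.sqrt_eq_rpow]; ring
    _ = _ := by
      rw [← Real.rpow_add hY0, ← Real.rpow_add hY0]
      congr 2
      ring

end Pool.Agent.Lib.MP_5ad645_nt.H89
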