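import Mathlib
import Pool.Agent.Lib.MP_5ad645_nt.H89.Wsum

/-!
# From a solution of the system to a point of `R` (MP_5ad645_nt)
-/

set_option autoImplicit false
set_option maxHeartbeats 2000000

open Finset

namespace Pool.Agent.Lib.MP_5ad645_nt.H89

/-- the system. -/
def IsSol (n b e f g h k l : ℕ) : Prop :=
  Odd n ∧ 1 < b ∧ 1 < e ∧ 1 < f ∧ 1 < g ∧ 1 < h ∧ 1 < k ∧ 1 < l ∧
    n = e ^ 2 - f ^ 2 ∧ n = b * (g ^ 2 - h ^ 2) ∧ n = k ^ 2 - l ^ 2 ∧
    e ^ 2 * f ^ 2 = b ^ 2 * g ^ 2 * h ^ 2 + k ^ 2 * l ^ 2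

/-- an odd coprime pair `β < γ` in the form `x - t`, `x + t`. -/
theorem odd_pair {β γ : ℕ} (hβ : Odd β) (hγ : Odd γ) (hlt : β < γ) (hc : Nat.Coprime β γ) :
    ∃ x t : ℕ, 1 ≤ t ∧ t < x ∧ Nat.Coprime x t ∧ β = x - t ∧ γ = x + t ∧ x ^ 2 - t ^ 2 = β * γ := by
  obtain ⟨a, ha⟩ := hβ
  obtain ⟨c, hcc⟩ := hγ
  refine ⟨a + c + 1, c - a, by omega, by omega, ?_, by omega, by omega, ?_⟩
  · rw [Nat.coprime_iff_gcd_eq_one]
    have h1 : Nat.gcd (a + c + 1) (c - a) ∣ β := by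
      have e : β = (a + c + 1) - (c - a) := by omega
      rw [e]
      exact Nat.dvd_sub (Nat.gcd_dvd_left _ _) (Nat.gcd_dvd_right _ _)
    have h2 : Nat.gcd (a + c + 1) (c - a) ∣ γ := by
      have e : γ = (a + c + 1) + (c - a) := by omega
      rw [e]
      exact Nat.dvd_add (Nat.gcd_dvd_left _ _) (Nat.gcd_dvd_right _ _)
    have h3 := Nat.dvd_gcd h1 h2
    rw [Nat.coprime_iff_gcd_eq_one.1 hc] at h3
    exact Nat.dvd_one.1 h3
  · rw [Nat.sq_sub_sq]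
    have e1 : (a + c + 1) + (c - a) = γ := by omega
    have e2 : (a + c + 1) - (c - a) = β := by omega
    rw [e1, e2, mul_comm]

theorem extract {n b e f g h k l : ℕ} (hs : IsSol n b e f g h k l) :
    ∃ (m : ℕ) (P Q : ℕ × ℕ), 1 ≤ m ∧ n = m ^ 2 * (ww P * ww Q) ∧ IsSquare (hh P * hh Q) ∧
      (1 ≤ P.2 ∧ P.2 < P.1 ∧ Nat.Coprime P.1 P.2) ∧ (1 ≤ Q.2 ∧ Q.2 < Q.1 ∧ Nat.Coprime Q.1 Q.2) := by
  obtain ⟨hn, hb, he, hf, hg, hh1, hk, hl, h1, h2, h3, h4⟩ := hs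
  have hn1 : 1 ≤ n := hn.pos
  -- sums and differences
  have hef : f < e := by
    by_contra hcon
    push Not at hcon
    have : e ^ 2 ≤ f ^ 2 := Nat.pow_le_pow_left hcon 2
    omega
  have hkl : l < k := by
    by_contra hcon
    push Not at hcon
    have : k ^ 2 ≤ l ^ 2 := Nat.pow_le_pow_left hcon 2
    omega
  obtain ⟨U1, hU1⟩ := Nat.exists_eq_add_of_lt hef
  obtain ⟨U3, hU3⟩ := Nat.exists_eq_add_of_lt hkl
  set u := U1 + 1 with hu
  set v := U3 + 1 with hv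
  have he' : e = f + u := by omega
  have hk' : k = l + v := by omega
  have hn1' : n = u * (2 * f + u) := by
    rw [h1, he', Nat.sq_sub_sq]
    have e1 : f + u - f = u := by omega
    rw [e1]; ring
  have hn3' : n = v * (2 * l + v) := by
    rw [h3, hk', Nat.sq_sub_sq]
    have e1 : l + v - l = v := by omega
    rw [e1]; ring
  clear_value u v
  -- gcd decomposition
  have hu0 : 0 < u := by omega
  have hv0 : 0 < v := by omega
  obtain ⟨β, γ, hcop, hβ, hγ⟩ : ∃ β γ : ℕ, Nat.Coprime β γ ∧ u = Nat.gcd u v * β ∧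
      v = Nat.gcd u v * γ := by
    refine ⟨u / Nat.gcd u v, v / Nat.gcd u v, ?_, ?_, ?_⟩
    · exact Nat.coprime_div_gcd_div_gcd (Nat.gcd_pos_of_pos_left _ hu0)
    · rw [Nat.mul_div_cancel' (Nat.gcd_dvd_left _ _)]
    · rw [Nat.mul_div_cancel' (Nat.gcd_dvd_right _ _)]
  set α := Nat.gcd u v with hα
  have hα0 : 0 < α := Nat.gcd_pos_of_pos_left _ hu0
  clear_value α
  subst hβ hγ
  have hβ0 : 0 < β := by
    rcases Nat.eq_zero_or_pos β with h0 | h0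
    · rw [h0] at hu0; simp at hu0
    · exact h0
  have hγ0 : 0 < γ := by
    rcases Nat.eq_zero_or_pos γ with h0 | h0
    · rw [h0] at hv0; simp at hv0
    · exact h0
  have heq : β * (2 * f + α * β) = γ * (2 * l + α * γ) := by
    have : α * (β * (2 * f + α * β)) = α * (γ * (2 * l + α * γ)) := by
      calc _ = α * β * (2 * f + α * β) := by ring
        _ = n := hn1'.symm
        _ = α * γ * (2 * l + α * γ) := hn3'
        _ = _ := by ring
    exact Nat.eq_of_mul_eq_mul_left hα0 this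
  obtain ⟨δ, hδ⟩ : γ ∣ 2 * f + α * β := by
    have : γ ∣ β * (2 * f + α * β) := ⟨_, heq⟩
    exact (Nat.Coprime.dvd_of_dvd_mul_left hcop.symm this)
  have hδ' : 2 * l + α * γ = β * δ := by
    rw [hδ] at heq
    have : γ * (2 * l + α * γ) = γ * (β * δ) := by rw [← heq]; ring
    exact Nat.eq_of_mul_eq_mul_left hγ0 this
  have hnn : n = α * β * (γ * δ) := by rw [hn1', hδ]
  -- parity
  have hodd : Odd α ∧ Odd β ∧ Odd γ ∧ Odd δ := by
    rw [hnn, Nat.odd_mul, Nat.odd_mul, Nat.odd_mul] at hn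
    tauto
  obtain ⟨oα, oβ, oγ, oδ⟩ := hodd
  -- sizes
  have hδ1 : α * γ < β * δ := by rw [← hδ']; omega
  have hef2 : e * f * (e * f) > k * l * (k * l) := by
    have e1 : e * f * (e * f) = e ^ 2 * f ^ 2 := by ring
    have e2 : k * l * (k * l) = k ^ 2 * l ^ 2 := by ring
    have e3 : 0 < b ^ 2 * g ^ 2 * h ^ 2 := by positivity
    rw [e1, e2, h4]; omega
  have hef3 : k * l < e * f := lt_of_mul_self_lt_mul_self₀ (Nat.zero_le _) hef2
  have hβγ : β < γ := by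
    by_contra hcon
    push Not at hcon
    -- γ ≤ β gives 4ef ≤ 4kl
    have h5 : (γ * δ) ^ 2 ≤ (β * δ) ^ 2 := Nat.pow_le_pow_left (Nat.mul_le_mul_right _ hcon) 2
    have h6 : (α * γ) ^ 2 ≤ (α * β) ^ 2 := Nat.pow_le_pow_left (Nat.mul_le_mul_left _ hcon) 2
    have h7 : 4 * (e * f) + (α * β) ^ 2 = (γ * δ) ^ 2 := by
      rw [← hδ, he']; ring
    have h8 : 4 * (k * l) + (α * γ) ^ 2 = (β * δ) ^ 2 := by
      rw [← hδ', hk']; ring
    omega
  have hαδ : α < δ := by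
    by_contra hcon
    push Not at hcon
    have : β * δ ≤ γ * α := Nat.mul_le_mul hβγ.le hcon
    rw [mul_comm γ α] at this
    omega
  -- m
  obtain ⟨α', δ', hcop2, hα', hδ2⟩ : ∃ α' δ' : ℕ, Nat.Coprime α' δ' ∧ α = Nat.gcd α δ * α' ∧
      δ = Nat.gcd α δ * δ' := by
    refine ⟨α / Nat.gcd α δ, δ / Nat.gcd α δ, ?_, ?_, ?_⟩
    · exact Nat.coprime_div_gcd_div_gcd (Nat.gcd_pos_of_pos_left _ hα0)
    · rw [Nat.mul_div_cancel' (Nat.gcd_dvd_left _ _)]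
    · rw [Nat.mul_div_cancel' (Nat.gcd_dvd_right _ _)]
  have hm0 : 0 < Nat.gcd α δ := Nat.gcd_pos_of_pos_left _ hα0
  set m := Nat.gcd α δ with hm
  clear_value m
  subst hα' hδ2
  rw [Nat.odd_mul] at oα oδ
  have hlt2 : α' < δ' := Nat.lt_of_mul_lt_mul_left hαδ
  obtain ⟨x1, t1, ht1, hx1, hc1, hb1, hg1, hw1⟩ := odd_pair oβ oγ hβγ hcop
  obtain ⟨x2, t2, ht2, hx2, hc2, hb2, hg2, hw2⟩ := odd_pair oα.2 oδ.2 hlt2 hcop2
  refine ⟨m, (x1, t1), (x2, t2), hm0, ?_, ?_, ⟨ht1, hx1, hc1⟩, ⟨ht2, hx2, hc2⟩⟩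
  · unfold ww
    simp only
    rw [hw1, hw2, hnn]
    ring
  · -- the square
    have key : (b * g * h) ^ 2 = (2 * m ^ 2) ^ 2 * (hh (x1, t1) * hh (x2, t2)) := by
      unfold hh
      simp only
      have hβz : (β : ℤ) = x1 - t1 := by rw [hb1]; push_cast [hx1.le]; ring
      have hγz : (γ : ℤ) = x1 + t1 := by exact_mod_cast hg1
      have hαz : (α' : ℤ) = x2 - t2 := by rw [hb2]; push_cast [hx2.le]; ring
      have hδz : (δ' : ℤ) = x2 + t2 := by exact_mod_cast hg2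
      have f1 : (e : ℤ) = f + m * α' * β := by exact_mod_cast he'
      have f2 : (k : ℤ) = l + m * α' * γ := by exact_mod_cast hk'
      have f3 : (2 : ℤ) * f + m * α' * β = γ * (m * δ') := by exact_mod_cast hδ
      have f4 : (2 : ℤ) * l + m * α' * γ = β * (m * δ') := by exact_mod_cast hδ'
      have f5 : (e : ℤ) ^ 2 * f ^ 2 = b ^ 2 * g ^ 2 * h ^ 2 + k ^ 2 * l ^ 2 := by exact_mod_cast h4
      have g1 : (4 : ℤ) * (e * f) = (γ * (m * δ')) ^ 2 - (m * α' * β) ^ 2 := by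
        rw [← f3, f1]; ring
      have g2 : (4 : ℤ) * (k * l) = (β * (m * δ')) ^ 2 - (m * α' * γ) ^ 2 := by
        rw [← f4, f2]; ring
      have g3 : (16 : ℤ) * (b * g * h) ^ 2 = (4 * (e * f)) ^ 2 - (4 * (k * l)) ^ 2 := by
        linear_combination (-16 : ℤ) * f5
      rw [g1, g2, hβz, hγz, hαz, hδz] at g3
      have g4 : ((b : ℤ) * g * h) ^ 2 = (2 * (m : ℤ) ^ 2) ^ 2 *
          ((x1 : ℤ) * t1 * ((x1 : ℤ) ^ 2 + t1 ^ 2) * (x2 * t2 * ((x2 : ℤ) ^ 2 + t2 ^ 2))) := by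
        have h16 : (16 : ℤ) ≠ 0 := by norm_num
        apply mul_left_cancel₀ h16
        linear_combination g3
      exact_mod_cast g4
    have hd : (2 * m ^ 2) ∣ b * g * h := by
      rw [← Nat.pow_dvd_pow_iff (n := 2) (by norm_num)]
      exact ⟨_, key⟩
    obtain ⟨s, hs⟩ := hd
    rw [hs] at key
    refine ⟨s, ?_⟩
    have hm2 : 0 < (2 * m ^ 2) ^ 2 := by positivity
    apply Nat.eq_of_mul_eq_mul_left hm2
    rw [← key]; ring

end Pool.Agent.Lib.MP_5ad645_nt.H89
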