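import Mathlib
import Pool.Agent.Lib.MP_5ad645_nt.H89.Extract

/-!
# The two bounds for the number of solutions (MP_5ad645_nt)
-/

set_option autoImplicit false
set_option maxHeartbeats 2000000

open Finset

namespace Pool.Agent.Lib.MP_5ad645_nt.H89

/-- solution tuples `(n, b, e, f, g, h, k, l)` with `n ≤ X`. -/
def Sols (X : ℕ) : Set (Fin 8 → ℕ) :=
  {s | s 0 ≤ X ∧ IsSol (s 0) (s 1) (s 2) (s 3) (s 4) (s 5) (s 6) (s 7)}

/-- solvable `n ≤ X`. -/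
def Nset (X : ℕ) : Set ℕ :=
  {n | n ≤ X ∧ ∃ b e f g h k l : ℕ, IsSol n b e f g h k l}

open Classical in
/-- solvable `n ≤ X` as a finset. -/
noncomputable def nset (X : ℕ) : Finset ℕ :=
  (Icc 1 X).filter (fun n => ∃ b e f g h k l : ℕ, IsSol n b e f g h k l)

theorem mem_nset {X n : ℕ} : n ∈ nset X ↔ (1 ≤ n ∧ n ≤ X) ∧
    ∃ b e f g h k l : ℕ, IsSol n b e f g h k l := by
  classical
  rw [nset, mem_filter, mem_Icc]

theorem le_ww {x t : ℕ} (ht : t < x) : x ≤ ww (x, t) := by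
  unfold ww
  simp only
  obtain ⟨y, hy⟩ := Nat.exists_eq_add_of_lt ht
  rw [hy]
  have e : (t + y + 1) ^ 2 = t ^ 2 + (y + 1) ^ 2 + 2 * t * (y + 1) := by ring
  rw [e]
  have h1 : t + y + 1 ≤ (y + 1) ^ 2 + 2 * t * (y + 1) := by nlinarith [Nat.zero_le t, Nat.zero_le y, Nat.zero_le (t * y)]
  omega

theorem mem_prs_of {Y x t : ℕ} (h1 : 1 ≤ t) (h2 : t < x) (h3 : Nat.Coprime x t)
    (h4 : ww (x, t) ≤ Y) : (x, t) ∈ prs Y := by
  rw [mem_prs]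
  have := le_ww h2
  simp only
  exact ⟨⟨by omega, by omega⟩, ⟨h1, by omega⟩, h2, h3⟩

theorem card_nset_le (X : ℕ) : (nset X).card ≤ ∑ m ∈ Icc 1 X, (Rset (X / m ^ 2)).card := by
  classical
  have hsub : nset X ⊆ (Icc 1 X).biUnion (fun m => (Rset (X / m ^ 2)).image
      (fun z => m ^ 2 * (ww z.1 * ww z.2))) := by
    intro n hn
    rw [mem_nset] at hn
    obtain ⟨⟨hn1, hnX⟩, b, e, f, g, h, k, l, hs⟩ := hn
    obtain ⟨m, ⟨x1, t1⟩, ⟨x2, t2⟩, hm, hnn, hsq, ⟨h1, h2, h3⟩, h4, h5, h6⟩ := extract hs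
    simp only at h1 h2 h3 h4 h5 h6
    have w1 : x1 ≤ ww (x1, t1) := le_ww h2
    have w2 : x2 ≤ ww (x2, t2) := le_ww h5
    have hw1 : 1 ≤ ww (x1, t1) := by omega
    have hw2 : 1 ≤ ww (x2, t2) := by omega
    have hm2 : 0 < m ^ 2 := by positivity
    have hprod : ww (x1, t1) * ww (x2, t2) ≤ X / m ^ 2 := by
      rw [Nat.le_div_iff_mul_le hm2, mul_comm, ← hnn]
      exact hnX
    have hp1 : ww (x1, t1) ≤ X / m ^ 2 := le_trans (Nat.le_mul_of_pos_right _ hw2) hprod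
    have hp2 : ww (x2, t2) ≤ X / m ^ 2 := le_trans (Nat.le_mul_of_pos_left _ hw1) hprod
    rw [mem_biUnion]
    refine ⟨m, ?_, ?_⟩
    · rw [mem_Icc]
      refine ⟨hm, ?_⟩
      calc m ≤ m ^ 2 := by nlinarith
        _ ≤ m ^ 2 * (ww (x1, t1) * ww (x2, t2)) := Nat.le_mul_of_pos_right _ (Nat.mul_pos hw1 hw2)
        _ = n := hnn.symm
        _ ≤ X := hnX
    · rw [mem_image]
      refine ⟨((x1, t1), (x2, t2)), ?_, hnn.symm⟩
      rw [mem_Rset]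
      exact ⟨⟨mem_prs_of h1 h2 h3 hp1, mem_prs_of h4 h5 h6 hp2⟩, hsq, hprod⟩
  refine (card_le_card hsub).trans ?_
  refine card_biUnion_le.trans ?_
  apply sum_le_sum
  intro m _
  exact card_image_le

theorem Rset_zero : (Rset 0).card = 0 := by
  rw [card_eq_zero]
  ext z
  rw [mem_Rset, mem_prs]
  constructor
  · rintro ⟨⟨⟨⟨h1, h2⟩, _⟩, _⟩, _⟩
    omega
  · intro h
    exact absurd h (notMem_empty z)

theorem card_nset {ε : ℝ} (hε : 0 < ε) : ∃ C : ℝ, 0 < C ∧ ∀ X : ℕ, 1 ≤ X →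
    ((nset X).card : ℝ) ≤ C * (X : ℝ) ^ (1 / 2 + ε) := by
  obtain ⟨C1, hC1, h1⟩ := card_Rset (ε := ε / 2) (by positivity)
  refine ⟨C1 * (1 + 2 / ε), by positivity, fun X hX => ?_⟩
  have hXr : (1 : ℝ) ≤ X := by exact_mod_cast hX
  have hX0 : (0 : ℝ) < X := by linarith
  have h2 : ((nset X).card : ℝ) ≤ ∑ m ∈ Icc 1 X, ((Rset (X / m ^ 2)).card : ℝ) := by
    exact_mod_cast card_nset_le X
  have h3 : ∀ m ∈ Icc 1 X, ((Rset (X / m ^ 2)).card : ℝ) ≤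
      C1 * (X : ℝ) ^ (1 / 2 + ε / 2) * (1 / (m : ℝ)) := by
    intro m hm
    rw [mem_Icc] at hm
    have hmr : (1 : ℝ) ≤ m := by exact_mod_cast hm.1
    have hm0 : (0 : ℝ) < m := by linarith
    rcases Nat.eq_zero_or_pos (X / m ^ 2) with h0 | h0
    · rw [h0, Rset_zero]
      simp only [Nat.cast_zero]
      positivity
    · have h4 := h1 (X / m ^ 2) h0
      refine h4.trans ?_
      have h5 : ((X / m ^ 2 : ℕ) : ℝ) ≤ (X : ℝ) / (m : ℝ) ^ (2 : ℕ) := by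
        have := Nat.cast_div_le (α := ℝ) (m := X) (n := m ^ 2)
        push_cast at this
        exact this
      have h6 : (((X / m ^ 2 : ℕ) : ℝ)) ^ (1 / 2 + ε / 2) ≤ ((X : ℝ) / (m : ℝ) ^ (2 : ℕ)) ^ (1 / 2 + ε / 2) := by
        apply Real.rpow_le_rpow (Nat.cast_nonneg _) h5 (by positivity)
      have h7 : ((X : ℝ) / (m : ℝ) ^ (2 : ℕ)) ^ (1 / 2 + ε / 2) ≤
          (X : ℝ) ^ (1 / 2 + ε / 2) * (1 / (m : ℝ)) := by
        rw [Real.div_rpow hX0.le (by positivity), div_eq_mul_one_div]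
        apply mul_le_mul_of_nonneg_left _ (by positivity)
        apply one_div_le_one_div_of_le hm0
        rw [← Real.rpow_natCast, ← Real.rpow_mul hm0.le]
        calc (m : ℝ) = (m : ℝ) ^ (1 : ℝ) := (Real.rpow_one _).symm
          _ ≤ _ := by
            apply Real.rpow_le_rpow_of_exponent_le hmr
            push_cast
            linarith
      calc _ ≤ C1 * ((X : ℝ) ^ (1 / 2 + ε / 2) * (1 / (m : ℝ))) :=
            mul_le_mul_of_nonneg_left (h6.trans h7) hC1.le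
        _ = _ := by ring
  have h4 : HY X ≤ (1 + 2 / ε) * (X : ℝ) ^ (ε / 2) := by
    have h4 : Real.log X ≤ (X : ℝ) ^ (ε / 2) / (ε / 2) := Real.log_le_rpow_div (by positivity) (by positivity)
    have h5 : (1 : ℝ) ≤ (X : ℝ) ^ (ε / 2) := Real.one_le_rpow hXr (by positivity)
    calc HY X ≤ 1 + Real.log X := HY_le X
      _ ≤ (X : ℝ) ^ (ε / 2) + (X : ℝ) ^ (ε / 2) / (ε / 2) := by linarith
      _ = _ := by field_simp
  calc ((nset X).card : ℝ) ≤ ∑ m ∈ Icc 1 X, ((Rset (X / m ^ 2)).card : ℝ) := h2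
    _ ≤ ∑ m ∈ Icc 1 X, C1 * (X : ℝ) ^ (1 / 2 + ε / 2) * (1 / (m : ℝ)) := sum_le_sum h3
    _ = C1 * (X : ℝ) ^ (1 / 2 + ε / 2) * HY X := by rw [← mul_sum]; rfl
    _ ≤ C1 * (X : ℝ) ^ (1 / 2 + ε / 2) * ((1 + 2 / ε) * (X : ℝ) ^ (ε / 2)) := by gcongr
    _ = C1 * (1 + 2 / ε) * ((X : ℝ) ^ (1 / 2 + ε / 2) * (X : ℝ) ^ (ε / 2)) := by ring
    _ = _ := by
      rw [← Real.rpow_add hX0]
      congr 2
      ring

/-- target of the tuple count. -/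
noncomputable def Tset (X : ℕ) : Finset (Σ _ : ℕ, ℕ × ℕ × ℕ × ℕ) :=
  (nset X).sigma (fun n => n.divisors ×ˢ n.divisors ×ˢ n.divisors ×ˢ n.divisors)

/-- the map. -/
def phi (s : Fin 8 → ℕ) : Σ _ : ℕ, ℕ × ℕ × ℕ × ℕ :=
  ⟨s 0, (s 2 - s 3, s 6 - s 7, s 1, s 4 - s 5)⟩

theorem sq_sub_pos {a c n : ℕ} (hn : 1 ≤ n) (h : n = a ^ 2 - c ^ 2) :
    c < a ∧ n = (a - c) * (a + c) := by
  have h1 : c < a := by
    by_contra hcon
    push Not at hcon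
    have : a ^ 2 ≤ c ^ 2 := Nat.pow_le_pow_left hcon 2
    omega
  refine ⟨h1, ?_⟩
  rw [h, Nat.sq_sub_sq, mul_comm]

theorem pair_inj {a c a' c' n : ℕ} (h : c < a) (h' : c' < a')
    (e : n = (a - c) * (a + c)) (e' : n = (a' - c') * (a' + c')) (hd : a - c = a' - c') :
    a = a' ∧ c = c' := by
  rw [e] at e'
  rw [hd] at e'
  have : a + c = a' + c' := Nat.eq_of_mul_eq_mul_left (by omega) e'
  omega

theorem b_part {b g h n : ℕ} (hn : 1 ≤ n) (h1 : n = b * (g ^ 2 - h ^ 2)) :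
    1 ≤ b ∧ h < g ∧ n = b * ((g - h) * (g + h)) := by
  have hb : 1 ≤ b := by
    rcases Nat.eq_zero_or_pos b with h0 | h0
    · rw [h0] at h1; simp at h1; omega
    · exact h0
  have h2 : h < g := by
    by_contra hcon
    push Not at hcon
    have : g ^ 2 ≤ h ^ 2 := Nat.pow_le_pow_left hcon 2
    have h3 : g ^ 2 - h ^ 2 = 0 := by omega
    rw [h3] at h1
    omega
  refine ⟨hb, h2, ?_⟩
  rw [h1, Nat.sq_sub_sq, mul_comm (g + h)]

theorem phi_mapsTo (X : ℕ) : ∀ s ∈ Sols X, phi s ∈ (Tset X : Set (Σ _ : ℕ, ℕ × ℕ × ℕ × ℕ)) := by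
  intro s hs
  obtain ⟨hX, hsol⟩ := hs
  have hsol' := hsol
  obtain ⟨hn, hb, he, hf, hg, hh1, hk, hl, h1, h2, h3, h4⟩ := hsol
  have hn1 : 1 ≤ s 0 := hn.pos
  obtain ⟨a1, a2⟩ := sq_sub_pos hn1 h1
  obtain ⟨a3, a4⟩ := sq_sub_pos hn1 h3
  obtain ⟨a5, a6, a7⟩ := b_part hn1 h2
  rw [mem_coe, Tset, mem_sigma]
  refine ⟨mem_nset.2 ⟨⟨hn1, hX⟩, s 1, s 2, s 3, s 4, s 5, s 6, s 7, hsol'⟩, ?_⟩
  have hne : s 0 ≠ 0 := by omega
  simp only [phi, mem_product, Nat.mem_divisors]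
  refine ⟨⟨⟨_, a2⟩, hne⟩, ⟨⟨_, a4⟩, hne⟩, ⟨⟨_, h2⟩, hne⟩, ⟨⟨s 1 * (s 4 + s 5), ?_⟩, hne⟩⟩
  rw [a7]
  nth_rewrite 1 [← mul_assoc]
  ring

theorem phi_injOn (X : ℕ) : Set.InjOn phi (Sols X) := by
  intro s hs t ht hst
  obtain ⟨_, hs⟩ := hs
  obtain ⟨_, ht⟩ := ht
  obtain ⟨hn, hb, he, hf, hg, hh1, hk, hl, h1, h2, h3, h4⟩ := hs
  obtain ⟨hn', hb', he', hf', hg', hh1', hk', hl', h1', h2', h3', h4'⟩ := ht
  unfold phi at hst
  simp only [Sigma.mk.injEq, heq_eq_eq, Prod.mk.injEq] at hst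
  obtain ⟨e0, e1, e2, e3, e4⟩ := hst
  have hn1 : 1 ≤ s 0 := hn.pos
  have hn1' : 1 ≤ t 0 := hn'.pos
  obtain ⟨a1, a2⟩ := sq_sub_pos hn1 h1
  obtain ⟨a3, a4⟩ := sq_sub_pos hn1 h3
  obtain ⟨a5, a6, a7⟩ := b_part hn1 h2
  obtain ⟨b1, b2⟩ := sq_sub_pos hn1' h1'
  obtain ⟨b3, b4⟩ := sq_sub_pos hn1' h3'
  obtain ⟨b5, b6, b7⟩ := b_part hn1' h2'
  rw [← e0] at b2 b4 b7
  obtain ⟨c1, c2⟩ := pair_inj a1 b1 a2 b2 e1
  obtain ⟨c3, c4⟩ := pair_inj a3 b3 a4 b4 e2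
  have hgh : s 4 = t 4 ∧ s 5 = t 5 := by
    rw [← e3, a7] at b7
    have b8 := Nat.eq_of_mul_eq_mul_left (by omega) b7
    exact pair_inj a6 b6 rfl b8 e4
  funext i
  fin_cases i
  · exact e0
  · exact e3
  · exact c1
  · exact c2
  · exact hgh.1
  · exact hgh.2
  · exact c3
  · exact c4

/-- upper bound for solution tuples. -/
theorem upper {ε : ℝ} (hε : 0 < ε) : ∃ C : ℝ, 0 < C ∧ ∀ X : ℕ, 1 ≤ X →
    (Sols X).Finite ∧ ((Sols X).ncard : ℝ) ≤ C * (X : ℝ) ^ (1 / 2 + ε) := by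
  obtain ⟨C1, hC1, h1⟩ := card_nset (ε := ε / 2) (by positivity)
  obtain ⟨C2, hC2, hd⟩ := MP_1ea25c_nt.H61.card_divisors_le (ε := ε / 8) (by positivity)
  refine ⟨C1 * C2 ^ 4, by positivity, fun X hX => ?_⟩
  have hXr : (1 : ℝ) ≤ X := by exact_mod_cast hX
  have hX0 : (0 : ℝ) < X := by linarith
  have hfin : (Tset X : Set (Σ _ : ℕ, ℕ × ℕ × ℕ × ℕ)).Finite := (Tset X).finite_toSet
  refine ⟨Set.Finite.of_injOn (phi_mapsTo X) (phi_injOn X) hfin, ?_⟩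
  have h2 : (Sols X).ncard ≤ (Tset X).card := by
    have := Set.ncard_le_ncard_of_injOn phi (phi_mapsTo X) (phi_injOn X) hfin
    rwa [Set.ncard_coe_finset] at this
  have h3 : ((Tset X).card : ℝ) ≤ ((nset X).card : ℝ) * (C2 ^ 4 * (X : ℝ) ^ (ε / 2)) := by
    rw [Tset, card_sigma]
    push_cast
    rw [← nsmul_eq_mul, ← sum_const]
    apply sum_le_sum
    intro n hn
    rw [mem_nset] at hn
    rw [card_product, card_product, card_product]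
    push_cast
    have h4 : (n.divisors.card : ℝ) ≤ C2 * (X : ℝ) ^ (ε / 8) := by
      refine (hd n (by omega)).trans ?_
      have : (n : ℝ) ≤ X := by exact_mod_cast hn.1.2
      gcongr
    have h5 : (n.divisors.card : ℝ) ^ 4 ≤ (C2 * (X : ℝ) ^ (ε / 8)) ^ 4 := by gcongr
    calc _ = (n.divisors.card : ℝ) ^ 4 := by ring
      _ ≤ (C2 * (X : ℝ) ^ (ε / 8)) ^ 4 := h5
      _ = C2 ^ 4 * (X : ℝ) ^ (ε / 2) := by
        rw [mul_pow, ← Real.rpow_natCast ((X : ℝ) ^ (ε / 8)), ← Real.rpow_mul hX0.le]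
        congr 2
        push_cast; ring
  have h4 : ((Sols X).ncard : ℝ) ≤ ((Tset X).card : ℝ) := by exact_mod_cast h2
  have h5 := h1 X hX
  calc ((Sols X).ncard : ℝ) ≤ ((nset X).card : ℝ) * (C2 ^ 4 * (X : ℝ) ^ (ε / 2)) := h4.trans h3
    _ ≤ (C1 * (X : ℝ) ^ (1 / 2 + ε / 2)) * (C2 ^ 4 * (X : ℝ) ^ (ε / 2)) := by gcongr
    _ = C1 * C2 ^ 4 * ((X : ℝ) ^ (1 / 2 + ε / 2) * (X : ℝ) ^ (ε / 2)) := by ring
    _ = _ := by
      rw [← Real.rpow_add hX0]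
      congr 2
      ring

theorem scale {n b e f g h k l m : ℕ} (hm : Odd m) (hs : IsSol n b e f g h k l) :
    IsSol (m ^ 2 * n) b (m * e) (m * f) (m * g) (m * h) (m * k) (m * l) := by
  obtain ⟨hn, hb, he, hf, hg, hh1, hk, hl, h1, h2, h3, h4⟩ := hs
  have hm1 : 1 ≤ m := hm.pos
  have aux : ∀ a : ℕ, 1 < a → 1 < m * a := fun a ha => by nlinarith
  refine ⟨(hm.pow).mul hn, hb, aux e he, aux f hf, aux g hg, aux h hh1, aux k hk, aux l hl,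
    ?_, ?_, ?_, ?_⟩
  · rw [mul_pow, mul_pow, ← Nat.mul_sub, ← h1]
  · rw [mul_pow, mul_pow, ← Nat.mul_sub]
    calc m ^ 2 * n = m ^ 2 * (b * (g ^ 2 - h ^ 2)) := by rw [← h2]
      _ = _ := by ring
  · rw [mul_pow, mul_pow, ← Nat.mul_sub, ← h3]
  · calc (m * e) ^ 2 * (m * f) ^ 2 = m ^ 4 * (e ^ 2 * f ^ 2) := by ring
      _ = m ^ 4 * (b ^ 2 * g ^ 2 * h ^ 2 + k ^ 2 * l ^ 2) := by rw [h4]
      _ = _ := by ring

/-- lower bound. -/
theorem lower (hex : ∃ n b e f g h k l : ℕ, IsSol n b e f g h k l) :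
    ∃ c : ℝ, 0 < c ∧ ∃ X0 : ℕ, ∀ X : ℕ, X0 ≤ X → c * Real.sqrt X ≤ ((Nset X).ncard : ℝ) := by
  obtain ⟨n, b, e, f, g, h, k, l, hs⟩ := hex
  have hn1 : 1 ≤ n := hs.1.pos
  have hnr : (1 : ℝ) ≤ n := by exact_mod_cast hn1
  have hsn : 0 < Real.sqrt n := Real.sqrt_pos.2 (by linarith)
  refine ⟨1 / (4 * Real.sqrt n), by positivity, 16 * n, fun X hX => ?_⟩
  have hXr : (16 : ℝ) * n ≤ X := by exact_mod_cast hX
  set r : ℝ := Real.sqrt X / Real.sqrt n with hr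
  have hr4 : 4 ≤ r := by
    rw [hr, le_div_iff₀ hsn]
    have : (4 : ℝ) * Real.sqrt n = Real.sqrt (16 * n) := by
      rw [Real.sqrt_mul (by norm_num)]
      have : Real.sqrt 16 = 4 := by
        rw [show (16 : ℝ) = 4 ^ 2 by norm_num]
        exact Real.sqrt_sq (by norm_num)
      rw [this]
    rw [this]
    exact Real.sqrt_le_sqrt hXr
  set K : ℕ := ⌊r / 2⌋₊ with hK
  have hK1 : (K : ℝ) ≤ r / 2 := Nat.floor_le (by linarith)
  have hK2 : r / 2 < K + 1 := Nat.lt_floor_add_one _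
  have hinj : Function.Injective (fun j : ℕ => (2 * j + 1) ^ 2 * n) := by
    intro i j hij
    simp only at hij
    have h5 := Nat.eq_of_mul_eq_mul_right (by omega) hij
    have h6 : 2 * i + 1 = 2 * j + 1 := Nat.pow_left_injective (n := 2) (by norm_num) h5
    omega
  have hsub : (((range K).image (fun j : ℕ => (2 * j + 1) ^ 2 * n) : Finset ℕ) : Set ℕ) ⊆ Nset X := by
    intro x hx
    rw [mem_coe, mem_image] at hx
    obtain ⟨j, hj, rfl⟩ := hx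
    rw [mem_range] at hj
    refine ⟨?_, b, _, _, _, _, _, _, scale (m := 2 * j + 1) ⟨j, rfl⟩ hs⟩
    have h5 : ((2 * j + 1 : ℕ) : ℝ) ≤ r := by
      have : 2 * j + 1 ≤ 2 * K := by omega
      have h6 : ((2 * j + 1 : ℕ) : ℝ) ≤ 2 * (K : ℝ) := by exact_mod_cast this
      linarith
    have h6 : ((2 * j + 1 : ℕ) : ℝ) ^ 2 ≤ r ^ 2 := by gcongr
    have h7 : r ^ 2 = X / n := by
      rw [hr, div_pow, Real.sq_sqrt (Nat.cast_nonneg _), Real.sq_sqrt (Nat.cast_nonneg _)]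
    rw [h7, le_div_iff₀ (by linarith)] at h6
    exact_mod_cast h6
  have hfin : (Nset X).Finite := (Set.finite_Iic X).subset (fun x hx => hx.1)
  have h5 := Set.ncard_le_ncard hsub hfin
  rw [Set.ncard_coe_finset, card_image_of_injective _ hinj, card_range] at h5
  have h6 : (K : ℝ) ≤ ((Nset X).ncard : ℝ) := by exact_mod_cast h5
  have h7 : 1 / (4 * Real.sqrt n) * Real.sqrt X = r / 4 := by
    rw [hr]; field_simp
  rw [h7]
  linarith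

end Pool.Agent.Lib.MP_5ad645_nt.H89
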